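import Pool.Graph.R_pool_sql_team_seeded_b0a926ef.Results.MP_c35c17_an.Decomposition
import Pool.Graph.R_pool_sql_team_seeded_64922ed1.Results.MP_c35c17_an.LogLipschitzMotion
import Pool.Graph.R_pool_sql_team_seeded_64922ed1.X151.LF.Fill
import Pool.Graph.R_seed8.Helper240.ZFM.Q5b

/-!
# Weighted sums of the derivatives along the orbits of `z ^ d + c`
-/

set_option autoImplicit false
open Set Filter Topology Metric

namespace Pool.Agent.Helper30.PC

/-- the map `z ↦ z ^ d + c` -/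
def f (d : ℕ) (c : ℂ) : ℂ → ℂ := fun z => z ^ d + c

/-- the filled Julia set -/
def K (d : ℕ) (c : ℂ) : Set ℂ := {z | ∃ B : ℝ, ∀ n : ℕ, ‖(f d c)^[n] z‖ ≤ B}

/-- the derivative at the `i`-th point of the orbit of `z` -/
noncomputable def df (d : ℕ) (c z : ℂ) (i : ℕ) : ℂ := d * ((f d c)^[i] z) ^ (d - 1)

/-- the derivative of the iterate from the time `j` to the time `N` -/
noncomputable def E (d : ℕ) (c z : ℂ) (j N : ℕ) : ℂ := ∏ i ∈ Finset.Ico j N, df d c z i

/-- the weighted sum of the derivatives -/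
noncomputable def W (d : ℕ) (c : ℂ) (φ : ℂ → ℂ) (z : ℂ) (N : ℕ) : ℂ :=
  ∑ j ∈ Finset.Icc 1 N, φ ((f d c)^[j] z) * E d c z j N

/-- the sum of the absolute values of the derivatives -/
noncomputable def S (d : ℕ) (c z : ℂ) (N : ℕ) : ℝ := ∑ j ∈ Finset.Icc 1 N, ‖E d c z j N‖

variable {d : ℕ} {c z : ℂ}

lemma E_self (j : ℕ) : E d c z j j = 1 := by
  unfold E; simp

lemma E_succ {j N : ℕ} (h : j ≤ N) : E d c z j (N + 1) = df d c z N * E d c z j N := by
  unfold E
  rw [Finset.prod_Ico_succ_top h, mul_comm]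

lemma S_zero : S d c z 0 = 0 := by
  unfold S; simp

lemma S_nonneg (N : ℕ) : 0 ≤ S d c z N := Finset.sum_nonneg fun _ _ => norm_nonneg _

lemma W_zero (φ : ℂ → ℂ) : W d c φ z 0 = 0 := by
  unfold W; simp

lemma W_succ (φ : ℂ → ℂ) (N : ℕ) :
    W d c φ z (N + 1) = df d c z N * W d c φ z N + φ ((f d c)^[N + 1] z) := by
  unfold W
  rw [Finset.sum_Icc_succ_top (by omega), E_self, mul_one, Finset.mul_sum]
  congr 1
  apply Finset.sum_congr rfl
  intro j hj
  rw [E_succ (Finset.mem_Icc.mp hj).2]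
  ring

lemma W_sub (φ ψ : ℂ → ℂ) (N : ℕ) :
    W d c (fun w => φ w - ψ w) z N = W d c φ z N - W d c ψ z N := by
  unfold W
  rw [← Finset.sum_sub_distrib]
  apply Finset.sum_congr rfl
  intro j _
  ring

lemma W_const (R : ℂ) (N : ℕ) : W d c (fun _ => R) z N = R * W d c (fun _ => 1) z N := by
  unfold W
  rw [Finset.mul_sum]
  apply Finset.sum_congr rfl
  intro j _
  ring

lemma W_sub_const (φ : ℂ → ℂ) (R : ℂ) (N : ℕ) :
    W d c (fun w => φ w - R) z N = W d c φ z N - R * W d c (fun _ => 1) z N := by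
  rw [W_sub φ (fun _ => R), W_const]

lemma iter_mem (hz : z ∈ K d c) (n : ℕ) : (f d c)^[n] z ∈ K d c :=
  Pool.Agent.X151.LF.iter_mem (d := d) (c := c) hz n

lemma norm_W_le {φ : ℂ → ℂ} {ε : ℝ} (hφ : ∀ w ∈ K d c, ‖φ w‖ ≤ ε) (hz : z ∈ K d c) (N : ℕ) :
    ‖W d c φ z N‖ ≤ ε * S d c z N := by
  unfold W S
  rw [Finset.mul_sum]
  refine (norm_sum_le _ _).trans (Finset.sum_le_sum fun j _ => ?_)
  rw [norm_mul]
  exact mul_le_mul_of_nonneg_right (hφ _ (iter_mem hz j)) (norm_nonneg _)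

/-- coboundaries have bounded weighted sums -/
lemma W_coboundary {φ u : ℂ → ℂ}
    (h : ∀ w ∈ K d c, φ (f d c w) = u (f d c w) - d * w ^ (d - 1) * u w) (hz : z ∈ K d c) (N : ℕ) :
    W d c φ z N = u ((f d c)^[N] z) - E d c z 0 N * u z := by
  induction N with
  | zero => rw [W_zero, E_self]; simp
  | succ N ih =>
    rw [W_succ, ih, E_succ (Nat.zero_le _), Function.iterate_succ_apply',
      h _ (iter_mem hz N)]
    unfold df
    ring

open N62a1eb23 Pool.Agent.Results.MP_c35c17_an in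
lemma norm_le_two (hd : 2 ≤ d) (hc : c ∈ multibrotSet d) (hz : z ∈ K d c) : ‖z‖ ≤ 2 := by
  obtain ⟨B, hB⟩ := hz
  exact Pool.Agent.R240.Full.norm_le_of_bdd hd (Pool.Agent.R240.Univ.norm_c_le hd hc) hB

lemma x_log_le {x : ℝ} (h0 : 0 ≤ x) (h4 : x ≤ 4) : x * (1 + |Real.log x|) ≤ 21 := by
  rcases h0.eq_or_lt with h | h
  · rw [← h]; norm_num
  have h1 : |Real.log x| ≤ x + 1 / x := by
    rw [abs_le]
    constructor
    · have := Real.log_le_self (x := x⁻¹) (by positivity)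
      rw [Real.log_inv] at this
      have e : 1 / x = x⁻¹ := one_div x
      linarith
    · have := Real.log_le_self h0
      have : 0 < 1 / x := by positivity
      linarith
  calc x * (1 + |Real.log x|) ≤ x * (1 + (x + 1 / x)) := by gcongr
    _ = x + x ^ 2 + 1 := by field_simp; ring
    _ ≤ 21 := by nlinarith

open N62a1eb23 in
/-- the potentials are bounded on the filled Julia set -/
theorem poly (hd : 2 ≤ d) (hc : c ∈ multibrotSet d) (p : Polynomial ℂ) :
    ∃ (R : ℂ) (C : ℝ), 0 ≤ C ∧ ∀ z ∈ K d c, ∀ N : ℕ,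
      ‖W d c (fun w => p.eval w - R) z N‖ ≤ C * (1 + ‖E d c z 0 N‖) := by
  obtain ⟨M, hM⟩ : ∃ M : ℝ, ∀ x ∈ ball (0 : ℂ) 4, ‖p.eval x‖ ≤ M := by
    obtain ⟨M, hM⟩ := (isCompact_closedBall (0 : ℂ) 4).exists_bound_of_continuousOn
      (f := fun x => p.eval x) p.continuous.continuousOn
    exact ⟨M, fun x hx => hM x (ball_subset_closedBall hx)⟩
  have hM0 : 0 ≤ M := (norm_nonneg _).trans (hM 0 (mem_ball_self (by norm_num)))
  obtain ⟨-, ⟨R, μ, hR, hμ1, hμ2, hμ3, h4, -⟩, -⟩ :=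
    Pool.Agent.Results.MP_c35c17_an.Decomposition.result hd hc (Φ := fun x => p.eval x)
      p.differentiable.differentiableOn hM
  have hpi := Real.pi_pos
  obtain ⟨u, hu⟩ : ∃ u, u = Pool.Agent.Results.MP_c35c17_an.Decomposition.pot μ := ⟨_, rfl⟩
  have hub : ∀ w ∈ K d c, ‖u w‖ ≤ M / (3 * Real.pi) * Real.pi * (12 * 21) := by
    intro w hw
    have h5 := Pool.Agent.R240.Pair.pot_bound hμ1 hμ2 (norm_le_two hd hc hw)
      (show ‖(0 : ℂ)‖ ≤ 2 by norm_num)
    have e : ∀ w, u w = ∫ x in ball (0:ℂ) 4, μ x * (1 / (x - w)) := by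
      intro w
      rw [hu]
      unfold Pool.Agent.Results.MP_c35c17_an.Decomposition.pot
      simp only [mul_one_div]
    rw [← e, ← e, show u 0 = 0 by rw [hu]; exact hμ3, sub_zero, sub_zero] at h5
    refine h5.trans ?_
    rw [mul_assoc (M / (3 * Real.pi) * Real.pi)]
    have hx := x_log_le (norm_nonneg w) ((norm_le_two hd hc hw).trans (by norm_num))
    have h6 : ‖w‖ * (12 + 2 * |Real.log ‖w‖|) ≤ 12 * 21 := by
      have := mul_nonneg (norm_nonneg w) (abs_nonneg (Real.log ‖w‖))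
      nlinarith
    gcongr
  refine ⟨R, M / (3 * Real.pi) * Real.pi * (12 * 21), by positivity, ?_⟩
  intro z hz N
  have h5 := W_coboundary (d := d) (c := c) (φ := fun w => p.eval w - R) (u := u) (z := z) (by
    intro w hw
    have h6 := h4 w hw
    have h7 : deriv (Pool.Agent.Results.MP_c35c17_an.Decomposition.f d c) w = d * w ^ (d - 1) :=
      ((hasDerivAt_pow d w).add_const c).deriv
    rw [h7] at h6
    rw [hu]
    exact h6) hz N
  rw [h5]
  refine (norm_sub_le _ _).trans ?_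
  rw [norm_mul]
  have h6 := hub z hz
  have h7 := hub _ (iter_mem hz N)
  have h8 : ‖E d c z 0 N‖ * ‖u z‖ ≤
      ‖E d c z 0 N‖ * (M / (3 * Real.pi) * Real.pi * (12 * 21)) := by gcongr
  linarith

open N62a1eb23 in
/-- the weighted sums along all the orbits in the filled Julia set, for the weights which are
continuous there and holomorphic in the interior -/
theorem weights (hd : 2 ≤ d) (hc : c ∈ multibrotSet d) {φ : ℂ → ℂ} (hφ : ContinuousOn φ (K d c))
    (hφ' : DifferentiableOn ℂ φ (interior (K d c))) {ε : ℝ} (hε : 0 < ε) :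
    ∃ (R : ℂ) (C : ℝ), 0 ≤ C ∧ ∀ z ∈ K d c, ∀ N : ℕ,
      ‖W d c (fun w => φ w - R) z N‖ ≤ ε * S d c z N + C * (1 + ‖E d c z 0 N‖) := by
  obtain ⟨p, hp⟩ := ZFM.J_q5b.mergelyan (K := K d c) (Pool.Agent.X151.LF.isCompact_K hd c)
    (Pool.Agent.X151.LF.compl_connected hd c) φ hφ hφ' ε hε
  obtain ⟨R, C, hC, h⟩ := poly hd hc p
  refine ⟨R, C, hC, fun z hz N => ?_⟩
  have e : W d c (fun w => φ w - R) z N =
      W d c (fun w => p.eval w - R) z N - W d c (fun w => p.eval w - φ w) z N := by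
    rw [← W_sub]
    congr 1
    funext w
    ring
  rw [e]
  refine (norm_sub_le _ _).trans ?_
  have h1 := h z hz N
  have h2 := norm_W_le (φ := fun w => p.eval w - φ w) (fun w hw => (hp w hw).le) hz N
  linarith

end Pool.Agent.Helper30.PC
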