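import Pool.Agent.Helper30.PC.Far

/-!
# Contraction, and coherent directions
-/

set_option autoImplicit false
open Set Filter Topology Metric N62a1eb23

namespace Pool.Agent.Helper30.PC

variable {d : ℕ} {c z : ℂ}

lemma taylor (d : ℕ) {L : ℝ} (hL : 0 ≤ L) : ∃ Q : ℝ, 0 ≤ Q ∧ ∀ w e : ℂ, ‖w‖ ≤ L → ‖e‖ ≤ 1 →
    ‖(w + e) ^ d - w ^ d - d * w ^ (d - 1) * e‖ ≤ Q * ‖e‖ ^ 2 := by
  induction d with
  | zero => exact ⟨0, le_rfl, fun w e _ _ => by simp⟩
  | succ d ih =>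
    obtain ⟨Q, hQ, h⟩ := ih
    refine ⟨(L + 1) * Q + d * L ^ (d - 1), by positivity, fun w e hw he => ?_⟩
    have h1 := h w e hw he
    have e1 : (w + e) ^ (d + 1) - w ^ (d + 1) - (d + 1 : ℕ) * w ^ (d + 1 - 1) * e =
        (w + e) * ((w + e) ^ d - w ^ d - d * w ^ (d - 1) * e) + d * w ^ (d - 1) * e ^ 2 := by
      rcases d with _ | d
      · push_cast; simp
      · simp only [Nat.add_sub_cancel]
        push_cast
        ring
    rw [e1]
    refine (norm_add_le _ _).trans ?_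
    rw [norm_mul, norm_mul, norm_mul, norm_pow, norm_pow, Complex.norm_natCast]
    have h2 : ‖w + e‖ ≤ L + 1 := (norm_add_le _ _).trans (add_le_add hw he)
    have h3 : ‖w‖ ^ (d - 1) ≤ L ^ (d - 1) := pow_le_pow_left₀ (norm_nonneg _) hw _
    calc ‖w + e‖ * ‖(w + e) ^ d - w ^ d - d * w ^ (d - 1) * e‖ + d * ‖w‖ ^ (d - 1) * ‖e‖ ^ 2
        ≤ (L + 1) * (Q * ‖e‖ ^ 2) + d * L ^ (d - 1) * ‖e‖ ^ 2 := by gcongr
      _ = _ := by ring

/-- If the derivatives of all the iterates between two times have bounded sums, the point is in the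
interior of the filled Julia set. -/
theorem contraction (hd : 2 ≤ d) (hc : c ∈ multibrotSet d) (hz : z ∈ K d c) {B : ℝ}
    (hB : ∀ N : ℕ, ‖E d c z 0 N‖ + S d c z N ≤ B) : z ∈ interior (K d c) := by
  obtain ⟨Q, hQ, hT⟩ := taylor d (L := 2) (by norm_num)
  have hB1 : 1 ≤ B := by
    have := hB 0
    rwa [E_self, S_zero, norm_one, add_zero] at this
  obtain ⟨r, hr⟩ : ∃ r, r = 1 / (4 * (Q + 1) * B ^ 2) := ⟨_, rfl⟩
  have hr0 : 0 < r := by rw [hr]; positivity
  have hr1 : 4 * (Q + 1) * B ^ 2 * r = 1 := by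
    rw [hr]; field_simp
  rw [mem_interior_iff_mem_nhds, Metric.mem_nhds_iff]
  refine ⟨r, hr0, fun y hy => ?_⟩
  rw [mem_ball, dist_eq_norm] at hy
  have hid : ∀ N, (f d c)^[N] y - (f d c)^[N] z = E d c z 0 N * (y - z) +
      ∑ j ∈ Finset.range N, E d c z (j + 1) N * (((f d c)^[j + 1] y - (f d c)^[j + 1] z) -
        df d c z j * ((f d c)^[j] y - (f d c)^[j] z)) := by
    intro N
    induction N with
    | zero => rw [E_self]; simp
    | succ N ih =>
      rw [Finset.sum_range_succ, E_self, one_mul, E_succ (Nat.zero_le _)]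
      have e1 : ∑ j ∈ Finset.range N, E d c z (j + 1) (N + 1) *
          (((f d c)^[j + 1] y - (f d c)^[j + 1] z) -
            df d c z j * ((f d c)^[j] y - (f d c)^[j] z)) =
          df d c z N * ∑ j ∈ Finset.range N, E d c z (j + 1) N *
          (((f d c)^[j + 1] y - (f d c)^[j + 1] z) -
            df d c z j * ((f d c)^[j] y - (f d c)^[j] z)) := by
        rw [Finset.mul_sum]
        apply Finset.sum_congr rfl
        intro j hj
        rw [E_succ (by have := Finset.mem_range.mp hj; omega)]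
        ring
      rw [e1]
      linear_combination df d c z N * ih
  have hSr : ∀ N, S d c z N = ∑ j ∈ Finset.range N, ‖E d c z (j + 1) N‖ := by
    intro N
    unfold S
    rw [Finset.range_eq_Ico, Finset.sum_Ico_add' (fun j => ‖E d c z j N‖) 0 N 1]
    rfl
  have hmain : ∀ N, ‖(f d c)^[N] y - (f d c)^[N] z‖ ≤ 2 * B * ‖y - z‖ := by
    intro N
    induction N using Nat.strong_induction_on with
    | _ N ih =>
      have hθ : ∀ j < N, ‖((f d c)^[j + 1] y - (f d c)^[j + 1] z) -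
          df d c z j * ((f d c)^[j] y - (f d c)^[j] z)‖ ≤ Q * (2 * B * ‖y - z‖) ^ 2 := by
        intro j hj
        have h1 := ih j hj
        have h2 : 2 * B * ‖y - z‖ ≤ 1 := by
          calc 2 * B * ‖y - z‖ ≤ 2 * B * r := by gcongr
            _ ≤ 4 * (Q + 1) * B ^ 2 * r := by
              apply mul_le_mul_of_nonneg_right _ hr0.le
              nlinarith
            _ = 1 := hr1
        have h3 := hT ((f d c)^[j] z) ((f d c)^[j] y - (f d c)^[j] z)
          (norm_le_two hd hc (iter_mem hz j)) (h1.trans h2)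
        have e1 : ((f d c)^[j + 1] y - (f d c)^[j + 1] z) -
          df d c z j * ((f d c)^[j] y - (f d c)^[j] z) =
          ((f d c)^[j] z + ((f d c)^[j] y - (f d c)^[j] z)) ^ d - ((f d c)^[j] z) ^ d -
            d * ((f d c)^[j] z) ^ (d - 1) * ((f d c)^[j] y - (f d c)^[j] z) := by
          rw [Function.iterate_succ_apply', Function.iterate_succ_apply', add_sub_cancel]
          unfold df f
          ring
        rw [e1]
        refine h3.trans ?_
        gcongr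
      rw [hid N]
      refine (norm_add_le _ _).trans ?_
      rw [norm_mul]
      have h4 : ‖∑ j ∈ Finset.range N, E d c z (j + 1) N *
          (((f d c)^[j + 1] y - (f d c)^[j + 1] z) -
            df d c z j * ((f d c)^[j] y - (f d c)^[j] z))‖ ≤
          S d c z N * (Q * (2 * B * ‖y - z‖) ^ 2) := by
        rw [hSr, Finset.sum_mul]
        refine (norm_sum_le _ _).trans (Finset.sum_le_sum fun j hj => ?_)
        rw [norm_mul]
        exact mul_le_mul_of_nonneg_left (hθ j (Finset.mem_range.mp hj)) (norm_nonneg _)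
      have h5 := hB N
      have h6 := S_nonneg (d := d) (c := c) (z := z) N
      have h7 := norm_nonneg (E d c z 0 N)
      have h8 := norm_nonneg (y - z)
      have h9 : Q * (2 * B * ‖y - z‖) ^ 2 ≤ ‖y - z‖ := by
        calc Q * (2 * B * ‖y - z‖) ^ 2 = 4 * Q * B ^ 2 * ‖y - z‖ * ‖y - z‖ := by ring
          _ ≤ 4 * (Q + 1) * B ^ 2 * r * ‖y - z‖ := by
            gcongr
            linarith
          _ = ‖y - z‖ := by rw [hr1, one_mul]
      calc ‖E d c z 0 N‖ * ‖y - z‖ + _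
          ≤ ‖E d c z 0 N‖ * ‖y - z‖ + S d c z N * (Q * (2 * B * ‖y - z‖) ^ 2) := by gcongr
        _ ≤ B * ‖y - z‖ + B * ‖y - z‖ := by
          gcongr
          · linarith
          · linarith
        _ = _ := by ring
  refine ⟨2 + 2 * B * ‖y - z‖, fun N => ?_⟩
  have h1 := hmain N
  have h2 := norm_le_two hd hc (iter_mem hz N)
  calc ‖(f d c)^[N] y‖ = ‖(f d c)^[N] z + ((f d c)^[N] y - (f d c)^[N] z)‖ := by
        rw [add_sub_cancel]
    _ ≤ _ := (norm_add_le _ _).trans (add_le_add h2 h1)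

lemma E_mul {i j N : ℕ} (h1 : i ≤ j) (h2 : j ≤ N) : E d c z i j * E d c z j N = E d c z i N := by
  unfold E
  exact Finset.prod_Ico_consecutive _ h1 h2

/-- Coherent directions: a continuous weight which follows them. -/
theorem coh_weight (hz : z ∈ K d c) (hd : 2 ≤ d) (h0 : ∀ i, 1 ≤ i → (f d c)^[i] z ≠ 0)
    {δ a : ℝ} (hδ : 0 < δ) (ha : 0 < a)
    (hcoh : ∀ i k : ℕ, 1 ≤ i → 1 ≤ k → ‖(f d c)^[i + k] z - (f d c)^[i] z‖ < δ →
      a * ‖E d c z i (i + k)‖ ≤ (E d c z i (i + k)).re) :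
    ∃ φ : ℂ → ℂ, Continuous φ ∧ ∃ b : ℝ, 0 < b ∧ ∀ N, b * S d c z N ≤ ‖W d c φ z N‖ := by
  classical
  obtain ⟨a', ha'⟩ : ∃ a', a' = min a 1 := ⟨_, rfl⟩
  have ha'0 : 0 < a' := by rw [ha']; exact lt_min ha one_pos
  have ha'1 : a' ≤ 1 := by rw [ha']; exact min_le_right _ _
  have ha'a : a' ≤ a := by rw [ha']; exact min_le_left _ _
  obtain ⟨G, hG⟩ : ∃ G : ℕ → ℂ, ∀ j, G j = E d c z 1 j := ⟨_, fun _ => rfl⟩
  have hdf : ∀ i, 1 ≤ i → df d c z i ≠ 0 := by
    intro i hi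
    unfold df
    have : (d : ℂ) ≠ 0 := by exact_mod_cast (by omega : d ≠ 0)
    exact mul_ne_zero this (pow_ne_zero _ (h0 i hi))
  have hG0 : ∀ j, G j ≠ 0 := by
    intro j
    rw [hG]
    unfold E
    exact Finset.prod_ne_zero_iff.mpr fun i hi => hdf i (Finset.mem_Ico.mp hi).1
  have hGE : ∀ i j, 1 ≤ i → i ≤ j → G j = G i * E d c z i j := by
    intro i j hi hij
    rw [hG, hG, E_mul hi hij]
  have hGn : ∀ j, 0 < ‖G j‖ := fun j => norm_pos_iff.mpr (hG0 j)
  -- coherence in terms of `G`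
  have hc1 : ∀ i j, 1 ≤ i → i ≤ j → ‖(f d c)^[j] z - (f d c)^[i] z‖ < δ →
      a' * (‖G i‖ * ‖G j‖) ≤ (G j * (starRingEnd ℂ) (G i)).re := by
    intro i j hi hij h
    have e1 : G j * (starRingEnd ℂ) (G i) = ((‖G i‖ ^ 2 : ℝ) : ℂ) * E d c z i j := by
      rw [hGE i j hi hij]
      have : G i * (starRingEnd ℂ) (G i) = ((‖G i‖ ^ 2 : ℝ) : ℂ) := by
        rw [Complex.mul_conj, Complex.normSq_eq_norm_sq]
      rw [← this]
      ring
    rw [e1, Complex.re_ofReal_mul]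
    have e2 : ‖G j‖ = ‖G i‖ * ‖E d c z i j‖ := by rw [hGE i j hi hij, norm_mul]
    rw [e2]
    have h1 : a' * ‖E d c z i j‖ ≤ (E d c z i j).re := by
      rcases hij.eq_or_lt with h2 | h2
      · rw [← h2, E_self]
        simp
        exact ha'1
      · obtain ⟨k, rfl⟩ : ∃ k, j = i + k := ⟨j - i, by omega⟩
        refine le_trans ?_ (hcoh i k hi (by omega) h)
        gcongr
    have := mul_le_mul_of_nonneg_left h1 (sq_nonneg ‖G i‖)
    linarith
  have hc2 : ∀ i j, 1 ≤ i → 1 ≤ j → ‖(f d c)^[j] z - (f d c)^[i] z‖ < δ →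
      a' * (‖G i‖ * ‖G j‖) ≤ (G i * (starRingEnd ℂ) (G j)).re := by
    intro i j hi hj h
    rcases le_total i j with hij | hij
    · have h1 := hc1 i j hi hij h
      have e1 : (G i * (starRingEnd ℂ) (G j)).re = (G j * (starRingEnd ℂ) (G i)).re := by
        simp only [Complex.mul_re, Complex.conj_re, Complex.conj_im]
        ring
      rw [e1]
      exact h1
    · rw [norm_sub_rev] at h
      have h1 := hc1 j i hj hij h
      linarith
  -- a finite net
  have htb : TotallyBounded ((fun i => (f d c)^[i] z) '' {i | 1 ≤ i}) := by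
    have hK : IsCompact (K d c) := Pool.Agent.X151.LF.isCompact_K hd c
    refine hK.totallyBounded.subset ?_
    rintro _ ⟨i, -, rfl⟩
    exact iter_mem hz i
  obtain ⟨t, ht1, ht2, ht3⟩ := Metric.finite_approx_of_totallyBounded htb (δ / 2) (by positivity)
  obtain ⟨T, hT1, hT2⟩ := (Set.subset_image_iff.mp ht1 : ∃ s, s ⊆ {i | 1 ≤ i} ∧
    (fun i => (f d c)^[i] z) '' s = t)
  have hnet : ∃ s : Finset ℕ, (∀ i ∈ s, 1 ≤ i) ∧
      ∀ j, 1 ≤ j → ∃ i ∈ s, ‖(f d c)^[j] z - (f d c)^[i] z‖ < δ / 2 := by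
    have h1 : ∀ y ∈ t, ∃ i, 1 ≤ i ∧ (f d c)^[i] z = y := by
      intro y hy
      obtain ⟨i, hi, h⟩ := ht1 hy
      exact ⟨i, hi, h⟩
    choose! g hg1 hg2 using h1
    refine ⟨ht2.toFinset.image g, ?_, ?_⟩
    · intro i hi
      rw [Finset.mem_image] at hi
      obtain ⟨y, hy, rfl⟩ := hi
      exact hg1 y (ht2.mem_toFinset.mp hy)
    · intro j hj
      have h2 := ht3 ⟨j, hj, rfl⟩
      rw [mem_iUnion₂] at h2
      obtain ⟨y, hy, h3⟩ := h2
      refine ⟨g y, Finset.mem_image.mpr ⟨y, ht2.mem_toFinset.mpr hy, rfl⟩, ?_⟩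
      rw [hg2 y hy]
      rwa [mem_ball, dist_eq_norm] at h3
  obtain ⟨s, hs1, hs2⟩ := hnet
  obtain ⟨ψ, hψ⟩ : ∃ ψ : ℕ → ℂ → ℝ, ∀ i w, ψ i w = max 0 (δ - ‖w - (f d c)^[i] z‖) :=
    ⟨_, fun _ _ => rfl⟩
  have hψ0 : ∀ i w, 0 ≤ ψ i w := fun i w => by rw [hψ]; exact le_max_left _ _
  refine ⟨fun w => ∑ i ∈ s, (ψ i w : ℂ) * (G i / ‖G i‖), ?_, a' * (δ / 2), by positivity, ?_⟩
  · refine continuous_finsetSum _ fun i _ => ?_
    refine Continuous.mul ?_ continuous_const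
    refine Complex.continuous_ofReal.comp ?_
    have : ψ i = fun w => max 0 (δ - ‖w - (f d c)^[i] z‖) := funext fun w => hψ i w
    rw [this]
    fun_prop
  intro N
  rcases Nat.eq_zero_or_pos N with hN | hN
  · subst hN
    rw [S_zero, W_zero]
    simp
  -- the weights at the points of the orbit
  have hpt : ∀ j, 1 ≤ j → a' * (δ / 2) * ‖G j‖ ≤
      ((∑ i ∈ s, (ψ i ((f d c)^[j] z) : ℂ) * (G i / ‖G i‖)) * (starRingEnd ℂ) (G j)).re := by
    intro j hj
    rw [Finset.sum_mul, Complex.re_sum]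
    obtain ⟨i₀, hi₀, hi₀'⟩ := hs2 j hj
    have h1 : ∀ i ∈ s, ψ i ((f d c)^[j] z) * (a' * ‖G j‖) ≤
        ((ψ i ((f d c)^[j] z) : ℂ) * (G i / ‖G i‖) * (starRingEnd ℂ) (G j)).re := by
      intro i hi
      have e1 : (ψ i ((f d c)^[j] z) : ℂ) * (G i / ‖G i‖) * (starRingEnd ℂ) (G j) =
          ((ψ i ((f d c)^[j] z) / ‖G i‖ : ℝ) : ℂ) * (G i * (starRingEnd ℂ) (G j)) := by
        push_cast
        ring
      rw [e1, Complex.re_ofReal_mul]
      rcases (hψ0 i ((f d c)^[j] z)).eq_or_lt with h2 | h2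
      · rw [← h2]; simp
      have h3 : ‖(f d c)^[j] z - (f d c)^[i] z‖ < δ := by
        rw [hψ] at h2
        rcases lt_max_iff.mp h2 with h4 | h4
        · exact absurd h4 (lt_irrefl _)
        · linarith
      have h4 := hc2 i j (hs1 i hi) hj h3
      have h5 := hGn i
      calc ψ i ((f d c)^[j] z) * (a' * ‖G j‖) =
            ψ i ((f d c)^[j] z) / ‖G i‖ * (a' * (‖G i‖ * ‖G j‖)) := by field_simp
        _ ≤ _ := by gcongr
    refine le_trans ?_ (Finset.sum_le_sum h1)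
    rw [← Finset.sum_mul]
    have h2 : δ / 2 ≤ ∑ i ∈ s, ψ i ((f d c)^[j] z) := by
      refine le_trans ?_ (Finset.single_le_sum (fun i _ => hψ0 i _) hi₀)
      rw [hψ]
      exact le_max_of_le_right (by linarith)
    have h3 := hGn j
    calc a' * (δ / 2) * ‖G j‖ = δ / 2 * (a' * ‖G j‖) := by ring
      _ ≤ _ := by gcongr
  have hGN := hGn N
  have e1 : W d c (fun w => ∑ i ∈ s, (ψ i w : ℂ) * (G i / ‖G i‖)) z N *
      (starRingEnd ℂ) (G N) = ∑ j ∈ Finset.Icc 1 N, ((‖G N‖ ^ 2 / ‖G j‖ ^ 2 : ℝ) : ℂ) *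
        ((∑ i ∈ s, (ψ i ((f d c)^[j] z) : ℂ) * (G i / ‖G i‖)) * (starRingEnd ℂ) (G j)) := by
    unfold W
    rw [Finset.sum_mul]
    apply Finset.sum_congr rfl
    intro j hj
    obtain ⟨hj1, hj2⟩ := Finset.mem_Icc.mp hj
    have e2 : E d c z j N = G N / G j := by
      rw [eq_div_iff (hG0 j), hGE j N hj1 hj2, mul_comm]
    have e3 : G N * (starRingEnd ℂ) (G N) = ((‖G N‖ ^ 2 : ℝ) : ℂ) := by
      rw [Complex.mul_conj, Complex.normSq_eq_norm_sq]
    have e4 : G j * (starRingEnd ℂ) (G j) = ((‖G j‖ ^ 2 : ℝ) : ℂ) := by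
      rw [Complex.mul_conj, Complex.normSq_eq_norm_sq]
    have e5 : (((‖G j‖ ^ 2 : ℝ) : ℂ)) ≠ 0 := by
      have := (hGn j).ne'
      exact_mod_cast pow_ne_zero 2 this
    rw [e2, Complex.ofReal_div, ← e3]
    rw [← e4] at e5 ⊢
    have e6 : (starRingEnd ℂ) (G j) ≠ 0 := right_ne_zero_of_mul e5
    have e7 := hG0 j
    field_simp
  have h1 : a' * (δ / 2) * S d c z N * ‖G N‖ ≤
      (W d c (fun w => ∑ i ∈ s, (ψ i w : ℂ) * (G i / ‖G i‖)) z N *
      (starRingEnd ℂ) (G N)).re := by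
    rw [e1, Complex.re_sum]
    unfold S
    rw [Finset.mul_sum, Finset.sum_mul]
    apply Finset.sum_le_sum
    intro j hj
    obtain ⟨hj1, hj2⟩ := Finset.mem_Icc.mp hj
    rw [Complex.re_ofReal_mul]
    have e2 : ‖E d c z j N‖ = ‖G N‖ / ‖G j‖ := by
      rw [eq_div_iff (hGn j).ne', hGE j N hj1 hj2, norm_mul, mul_comm]
    rw [e2]
    have h2 := hpt j hj1
    have h3 := hGn j
    calc a' * (δ / 2) * (‖G N‖ / ‖G j‖) * ‖G N‖ =
          ‖G N‖ ^ 2 / ‖G j‖ ^ 2 * (a' * (δ / 2) * ‖G j‖) := by field_simp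
      _ ≤ _ := by gcongr
  have h2 := (Complex.re_le_norm _).trans_eq (norm_mul
    (W d c (fun w => ∑ i ∈ s, (ψ i w : ℂ) * (G i / ‖G i‖)) z N) ((starRingEnd ℂ) (G N)))
  rw [RCLike.norm_conj] at h2
  exact le_of_mul_le_mul_right (h1.trans h2) hGN

end Pool.Agent.Helper30.PC
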