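import Pool.Agent.Helper30.PC.Base

/-!
# Parameters outside of the closure of the hyperbolic ones
-/

set_option autoImplicit false
open Set Filter Topology Metric N62a1eb23

namespace Pool.Agent.Helper30.PC

variable {d : ℕ} {c z : ℂ}

/-- The parameters with an attracting cycle. -/
def hyp (d : ℕ) : Set ℂ := {c | ∃ m z, IsAttractingCycle (f d c) m z}

lemma escapes (hd : 2 ≤ d) (hz : z ∉ K d c) :
    Tendsto (fun k => (f d c)^[k] z) atTop (Bornology.cobounded ℂ) := by
  have h1 : ¬ ∀ n, ‖(f d c)^[n] z‖ ≤ Pool.Agent.X151.LF.RR c := fun h => hz ⟨_, h⟩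
  push Not at h1
  obtain ⟨m, hm⟩ := h1
  rw [← tendsto_norm_atTop_iff_cobounded]
  rw [← tendsto_add_atTop_iff_nat m]
  have h2 : ∀ k : ℕ, 2 ^ k * ‖(f d c)^[m] z‖ ≤ ‖(f d c)^[k + m] z‖ := by
    intro k
    rw [Function.iterate_add_apply]
    exact (Pool.Agent.X151.LF.far_iter hd hm.le k).1
  have h3 : 0 < ‖(f d c)^[m] z‖ := (Pool.Agent.X151.LF.RR_pos c).trans hm
  refine tendsto_atTop_mono h2 ?_
  exact (tendsto_pow_atTop_atTop_of_one_lt (by norm_num : (1 : ℝ) < 2)).atTop_mul_const h3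

lemma deriv_iter (k : ℕ) (z : ℂ) : deriv (f d c)^[k] z = E d c z 0 k := by
  have h : ∀ k, HasDerivAt (f d c)^[k] (E d c z 0 k) z := by
    intro k
    induction k with
    | zero => rw [E_self]; exact hasDerivAt_id z
    | succ k ih =>
      rw [E_succ (Nat.zero_le _), Function.iterate_succ']
      have h1 : HasDerivAt (f d c) (df d c z k) ((f d c)^[k] z) :=
        (hasDerivAt_pow d _).add_const c
      exact h1.comp z ih
  exact (h k).deriv

lemma iter_succ_shift (z : ℂ) (i : ℕ) : df d c (f d c z) i = df d c z (i + 1) := by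
  unfold df
  rw [Function.iterate_succ_apply]

lemma E_shift (z : ℂ) (N : ℕ) : E d c z 0 (N + 1) = df d c z 0 * E d c (f d c z) 0 N := by
  unfold E
  rw [Finset.prod_Ico_eq_prod_range, Finset.prod_Ico_eq_prod_range, Nat.sub_zero, Nat.sub_zero,
    Finset.prod_range_succ']
  simp only [zero_add, iter_succ_shift]
  rw [mul_comm]

/-- the sum of the series -/
noncomputable def s (d : ℕ) (c z : ℂ) : ℂ := ∑' k : ℕ, (E d c z 0 (k + 1))⁻¹

lemma s_eq (hd : 2 ≤ d) (hs : Summable fun k : ℕ => ‖(E d c (f d c z) 0 (k + 1))⁻¹‖)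
    (hz : z ≠ 0) : df d c z 0 * s d c z = 1 + s d c (f d c z) := by
  have hdf : df d c z 0 ≠ 0 := by
    unfold df
    have : (d : ℂ) ≠ 0 := by exact_mod_cast (by omega : d ≠ 0)
    exact mul_ne_zero this (pow_ne_zero _ hz)
  unfold s
  simp only [E_shift z]
  have e : ∀ k, (df d c z 0 * E d c (f d c z) 0 k)⁻¹ =
      (df d c z 0)⁻¹ * (E d c (f d c z) 0 k)⁻¹ := fun k => mul_inv _ _
  simp only [e]
  rw [tsum_mul_left, ← mul_assoc, mul_inv_cancel₀ hdf, one_mul]
  have hs' : Summable fun k : ℕ => (E d c (f d c z) 0 k)⁻¹ :=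
    (summable_nat_add_iff 1).mp hs.of_norm
  rw [hs'.tsum_eq_zero_add, E_self, inv_one]

lemma W_one_eq (hd : 2 ≤ d) (hs : ∀ j, Summable fun k : ℕ => ‖(E d c ((f d c)^[j] z) 0 (k + 1))⁻¹‖)
    (hz : ∀ j, (f d c)^[j] z ≠ 0) (N : ℕ) :
    W d c (fun _ => 1) z N = E d c z 0 N * s d c z - s d c ((f d c)^[N] z) := by
  induction N with
  | zero => rw [W_zero, E_self]; simp
  | succ N ih =>
    have h1 := s_eq hd (by
      have := hs (N + 1)
      rwa [Function.iterate_succ_apply'] at this) (hz N)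
    have h2 : df d c ((f d c)^[N] z) 0 = df d c z N := by
      unfold df
      rw [Function.iterate_zero, id]
    rw [h2] at h1
    rw [W_succ, ih, E_succ (Nat.zero_le _), Function.iterate_succ_apply']
    linear_combination -h1

lemma zero_mem_K (hd : 2 ≤ d) (hc : c ∈ multibrotSet d) : (0 : ℂ) ∈ K d c := by
  by_contra h
  exact hc (escapes hd h)

/-- bounded sums of the derivatives -/
theorem one_bound (hd : 2 ≤ d) (hc : c ∈ multibrotSet d) (hcl : c ∉ closure (hyp d)) :
    ∃ C : ℝ, 0 ≤ C ∧ (∀ z ∈ frontier (K d c), ∀ N : ℕ,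
      ‖W d c (fun _ => 1) z N‖ ≤ C * (1 + ‖E d c z 0 N‖)) ∧
      ∀ N : ℕ, ‖W d c (fun _ => 1) 0 N‖ ≤ C := by
  obtain ⟨C, hC, hLL⟩ := Pool.Agent.Results.MP_c35c17_an.LogLipschitzMotion.result
  obtain ⟨hsum, hmov, -, -⟩ := hLL d hd c hc
  have hne : (hyp d).Nonempty := ⟨0, Pool.Agent.X151.MU.zero_mem_Hy hd⟩
  have hpos : 0 < infDist c (hyp d) := by
    rw [mem_closure_iff_infDist_zero hne] at hcl
    exact lt_of_le_of_ne infDist_nonneg (Ne.symm hcl)
  obtain ⟨δ, hδ⟩ : ∃ δ, δ = infDist c (hyp d) := ⟨_, rfl⟩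
  rw [← hδ] at hpos
  have hb : ∀ x v : ℂ, ‖x‖ ≤ 4 →
      Pool.Agent.Results.MP_c35c17_an.LogLipschitzMotion.Moving d c x v →
      ‖v‖ ≤ C * 21 / δ := by
    intro x v hx hv
    have h1 := hmov x v 0 0 hv (Or.inl ⟨rfl, rfl⟩)
    rw [sub_zero, sub_zero] at h1
    rw [le_div_iff₀ hpos]
    have h2 := x_log_le (norm_nonneg x) hx
    have h3 : C * ‖x‖ * (1 + |Real.log ‖x‖|) ≤ C * 21 := by
      rw [mul_assoc]
      gcongr
    have h4 : δ * ‖v‖ ≤ C * ‖x‖ * (1 + |Real.log ‖x‖|) := by rw [hδ]; exact h1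
    linarith
  have hK0 := zero_mem_K hd hc
  have hout : ∀ x, x ∉ K d c → ∀ j, (f d c)^[j] x ∉ K d c := by
    intro x hx j
    induction j with
    | zero => exact hx
    | succ j ih =>
      rw [Function.iterate_succ_apply']
      exact fun h => ih (Pool.Agent.X151.LF.f_mem_iff.mp h)
  have hsE : ∀ x, x ∉ K d c → Summable fun k : ℕ => ‖(E d c x 0 (k + 1))⁻¹‖ := by
    intro x hx
    have h1 := hsum x (escapes hd hx)
    have h2 : ∀ k, deriv (Pool.Agent.Results.MP_c35c17_an.LogLipschitzMotion.f d c)^[k] x =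
        E d c x 0 k := fun k => deriv_iter k x
    simp only [h2] at h1
    exact h1
  have hsb : ∀ x, x ∉ K d c → ‖x‖ ≤ 4 → ‖s d c x‖ ≤ C * 21 / δ := by
    intro x hx hx4
    have h1 := hb x (-s d c x) hx4 (Or.inr (Or.inr (Or.inr ⟨escapes hd hx, hx4, by
      have h2 : ∀ k, deriv (Pool.Agent.Results.MP_c35c17_an.LogLipschitzMotion.f d c)^[k] x =
        E d c x 0 k := fun k => deriv_iter k x
      simp only [h2]
      rfl⟩)))
    rwa [norm_neg] at h1
  refine ⟨C * 21 / δ, by positivity, ?_, ?_⟩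
  · intro z hz N
    have hzK : z ∈ K d c := by
      have h1 := frontier_subset_closure hz
      have h2 : IsClosed (K d c) := Pool.Agent.X151.LF.isClosed_K hd c
      rwa [h2.closure_eq] at h1
    have hcont : ∀ k, Continuous (f d c)^[k] := fun k =>
      (Pool.Agent.X151.LF.diff_iter d c k).continuous
    have hEc : ∀ j k, Continuous fun x => E d c x j k := by
      intro j k
      unfold E df
      exact continuous_finsetProd _ fun i _ => continuous_const.mul ((hcont i).pow _)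
    have hWc : Continuous fun x => W d c (fun _ => 1) x N := by
      unfold W
      exact continuous_finsetSum _ fun i _ => continuous_const.mul (hEc _ _)
    have hU : IsOpen {x : ℂ | ‖x‖ < 4 ∧ ‖(f d c)^[N] x‖ < 4} :=
      (isOpen_lt continuous_norm continuous_const).inter
        (isOpen_lt (hcont N).norm continuous_const)
    have hzU : z ∈ {x : ℂ | ‖x‖ < 4 ∧ ‖(f d c)^[N] x‖ < 4} := by
      have h1 := norm_le_two hd hc hzK
      have h2 := norm_le_two hd hc (iter_mem hzK N)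
      exact ⟨by linarith, by linarith⟩
    have hzcl : z ∈ closure ({x : ℂ | ‖x‖ < 4 ∧ ‖(f d c)^[N] x‖ < 4} ∩ (K d c)ᶜ) := by
      have h1 : z ∈ closure ((K d c)ᶜ) := by
        rw [closure_compl]
        exact hz.2
      rw [mem_closure_iff_nhds] at h1 ⊢
      intro V hV
      obtain ⟨x, hx1, hx2⟩ := h1 (V ∩ {x : ℂ | ‖x‖ < 4 ∧ ‖(f d c)^[N] x‖ < 4})
        (inter_mem hV (hU.mem_nhds hzU))
      exact ⟨x, hx1.1, hx1.2, hx2⟩
    have hclosed : IsClosed {x : ℂ | ‖W d c (fun _ => 1) x N‖ ≤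
        C * 21 / δ * (1 + ‖E d c x 0 N‖)} :=
      isClosed_le hWc.norm (continuous_const.mul (continuous_const.add (hEc _ _).norm))
    have hsub : ({x : ℂ | ‖x‖ < 4 ∧ ‖(f d c)^[N] x‖ < 4} ∩ (K d c)ᶜ) ⊆
        {x : ℂ | ‖W d c (fun _ => 1) x N‖ ≤ C * 21 / δ * (1 + ‖E d c x 0 N‖)} := by
      rintro x ⟨⟨hx1, hx2⟩, hx3⟩
      have h1 := W_one_eq hd (fun j => hsE _ (hout x hx3 j)) (fun j h => hout x hx3 j (by
        rw [h]; exact hK0)) N
      change ‖W d c (fun _ => 1) x N‖ ≤ _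
      rw [h1]
      refine (norm_sub_le _ _).trans ?_
      rw [norm_mul]
      have h2 := hsb x hx3 hx1.le
      have h3 := hsb _ (hout x hx3 N) hx2.le
      have h4 : ‖E d c x 0 N‖ * ‖s d c x‖ ≤ ‖E d c x 0 N‖ * (C * 21 / δ) := by gcongr
      linarith
    exact closure_minimal hsub hclosed hzcl
  · intro N
    rcases N with _ | N
    · rw [W_zero, norm_zero]; positivity
    have hW : ∀ N, W d c (fun _ => 1) 0 (N + 1) = Pool.Agent.TH363.QI.D d c N := by
      intro N
      induction N with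
      | zero =>
        rw [W_succ, W_zero, Pool.Agent.TH363.QI.D_zero]
        simp
      | succ N ih =>
        rw [W_succ, ih, Pool.Agent.TH363.QI.D_succ]
        congr 2
        unfold df
        congr 2
        rw [Function.iterate_succ_apply]
        have : f d c 0 = c := by
          unfold f
          rw [zero_pow (by omega), zero_add]
        rw [this]
        rfl
    rw [hW]
    have hcN : (f d c)^[N] c = (f d c)^[N + 1] 0 := by
      rw [Function.iterate_succ_apply]
      unfold f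
      rw [zero_pow (by omega), zero_add]
    refine hb ((f d c)^[N] c) _ ?_ (Or.inr (Or.inl ⟨N, rfl, ?_⟩))
    · rw [hcN]
      exact (norm_le_two hd hc (iter_mem hK0 _)).trans (by norm_num)
    · exact ((Pool.Agent.TH363.QI.hasDerivAt_D d c N).deriv).symm

end Pool.Agent.Helper30.PC
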