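import Pool.Agent.Helper30.PC.Coh

/-!
# Cancellation, and the dichotomy
-/

set_option autoImplicit false
open Set Filter Topology Metric N62a1eb23

namespace Pool.Agent.Helper30.PC

variable {d : ℕ} {c z : ℂ}

lemma E_zero_zero (hd : 2 ≤ d) {N : ℕ} (hN : 1 ≤ N) : E d c 0 0 N = 0 := by
  unfold E
  rw [Finset.prod_eq_zero_iff]
  refine ⟨0, Finset.mem_Ico.mpr ⟨le_rfl, by omega⟩, ?_⟩
  unfold df
  rw [Function.iterate_zero, id, zero_pow (by omega), mul_zero]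

/-- cancellation outside of the closure of the hyperbolic parameters -/
theorem cancel (hd : 2 ≤ d) (hc : c ∈ multibrotSet d) (hcl : c ∉ closure (hyp d)) {φ : ℂ → ℂ}
    (hφ : ContinuousOn φ (K d c)) (hφ' : DifferentiableOn ℂ φ (interior (K d c))) {ε : ℝ}
    (hε : 0 < ε) : ∃ C : ℝ, 0 ≤ C ∧
      (∀ z ∈ frontier (K d c), ∀ N : ℕ,
        ‖W d c φ z N‖ ≤ ε * S d c z N + C * (1 + ‖E d c z 0 N‖)) ∧
      ∀ N : ℕ, ‖W d c φ 0 N‖ ≤ ε * S d c 0 N + C := by
  obtain ⟨R, C1, hC1, h1⟩ := weights hd hc hφ hφ' hε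
  obtain ⟨C2, hC2, h2, h3⟩ := one_bound hd hc hcl
  have hKc : IsClosed (K d c) := Pool.Agent.X151.LF.isClosed_K hd c
  have e : ∀ z N, W d c φ z N = W d c (fun w => φ w - R) z N + R * W d c (fun _ => 1) z N := by
    intro z N
    rw [W_sub_const]
    ring
  refine ⟨C1 + ‖R‖ * C2, by positivity, ?_, ?_⟩
  · intro z hz N
    have hzK : z ∈ K d c := by
      have h4 := frontier_subset_closure hz
      rwa [hKc.closure_eq] at h4
    rw [e]
    refine (norm_add_le _ _).trans ?_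
    rw [norm_mul]
    have h4 := h1 z hzK N
    have h5 : ‖R‖ * ‖W d c (fun _ => 1) z N‖ ≤ ‖R‖ * (C2 * (1 + ‖E d c z 0 N‖)) := by
      gcongr
      exact h2 z hz N
    linarith
  · intro N
    rcases Nat.eq_zero_or_pos N with hN | hN
    · subst hN
      rw [W_zero, S_zero, norm_zero]
      positivity
    rw [e]
    refine (norm_add_le _ _).trans ?_
    rw [norm_mul]
    have h4 := h1 0 (zero_mem_K hd hc) N
    rw [E_zero_zero hd hN, norm_zero, add_zero, mul_one] at h4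
    have h5 : ‖R‖ * ‖W d c (fun _ => 1) 0 N‖ ≤ ‖R‖ * C2 := by
      gcongr
      exact h3 N
    linarith

lemma S_le (φ : ℂ → ℂ) (hφ : ∀ w, ‖φ w‖ ≤ 1) (N : ℕ) : ‖W d c φ z N‖ ≤ S d c z N := by
  unfold W S
  refine (norm_sum_le _ _).trans (Finset.sum_le_sum fun j _ => ?_)
  rw [norm_mul]
  exact mul_le_of_le_one_left (norm_nonneg _) (hφ _)

/-- the dichotomy -/
theorem dichotomy (hd : 2 ≤ d) (hc : c ∈ multibrotSet d) :
    (∀ φ : ℂ → ℂ, ContinuousOn φ (K d c) → DifferentiableOn ℂ φ (interior (K d c)) →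
      ∀ ε : ℝ, 0 < ε → ∃ C : ℝ, ∀ z ∈ K d c, ∀ N : ℕ,
        ‖W d c φ z N‖ ≤ ε * S d c z N + C * (1 + ‖E d c z 0 N‖)) ∨
    ∃ A : ℝ, 0 < A ∧
    ∀ φ : ℂ → ℂ, ContinuousOn φ (K d c) → DifferentiableOn ℂ φ (interior (K d c)) →
      ∃ ρ : ℂ, (∀ M : ℝ, (∀ w ∈ K d c, ‖φ w‖ ≤ M) → ‖ρ‖ ≤ A * M) ∧
        (∀ ε : ℝ, 0 < ε → ∃ C : ℝ, ∀ z ∈ K d c, ∀ N : ℕ,
          ‖W d c (fun w => φ w - ρ) z N‖ ≤ ε * S d c z N + C * (1 + ‖E d c z 0 N‖)) ∧
        ∀ ρ' : ℂ, (∀ ε : ℝ, 0 < ε → ∃ C : ℝ, ∀ z ∈ K d c, ∀ N : ℕ,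
          ‖W d c (fun w => φ w - ρ') z N‖ ≤ ε * S d c z N + C * (1 + ‖E d c z 0 N‖)) →
          ρ' = ρ := by
  by_cases hcase : ∀ ε : ℝ, 0 < ε → ∃ C : ℝ, ∀ z ∈ K d c, ∀ N : ℕ,
        ‖W d c (fun _ => 1) z N‖ ≤ ε * S d c z N + C * (1 + ‖E d c z 0 N‖)
  · left
    intro φ hφ hφ' ε hε
    obtain ⟨R, C1, hC1, h1⟩ := weights hd hc hφ hφ' (half_pos hε)
    obtain ⟨C2, h2⟩ := hcase (ε / 2 / (‖R‖ + 1)) (by positivity)
    refine ⟨C1 + ‖R‖ * C2, fun z hz N => ?_⟩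
    have e : W d c φ z N = W d c (fun w => φ w - R) z N + R * W d c (fun _ => 1) z N := by
      rw [W_sub_const]; ring
    rw [e]
    refine (norm_add_le _ _).trans ?_
    rw [norm_mul]
    have h4 := h1 z hz N
    have h5 : ‖R‖ * ‖W d c (fun _ => 1) z N‖ ≤
        ‖R‖ * (ε / 2 / (‖R‖ + 1) * S d c z N + C2 * (1 + ‖E d c z 0 N‖)) := by
      gcongr
      exact h2 z hz N
    have h6 : ‖R‖ * (ε / 2 / (‖R‖ + 1) * S d c z N) ≤ ε / 2 * S d c z N := by
      have h7 : ‖R‖ * (ε / 2 / (‖R‖ + 1) * S d c z N) =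
          ‖R‖ / (‖R‖ + 1) * (ε / 2 * S d c z N) := by ring
      rw [h7]
      apply mul_le_of_le_one_left
      · exact mul_nonneg (by positivity) (S_nonneg N)
      · rw [div_le_one (by positivity)]
        linarith
    nlinarith
  right
  push Not at hcase
  obtain ⟨a, ha, hcase⟩ := hcase
  -- the non-cancellation
  have hNC : ∀ B : ℝ, 0 < B → ∃ z ∈ K d c, ∃ N : ℕ, 0 < S d c z N ∧
      a * S d c z N ≤ ‖W d c (fun _ => 1) z N‖ ∧ B * (1 + ‖E d c z 0 N‖) ≤ S d c z N := by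
    intro B hB
    obtain ⟨z, hz, N, h⟩ := hcase B
    have h1 := S_le (d := d) (c := c) (z := z) (fun _ => 1) (fun _ => by simp) N
    have h2 : 0 < B * (1 + ‖E d c z 0 N‖) := by positivity
    have h3 : 0 ≤ a * S d c z N := mul_nonneg ha.le (S_nonneg N)
    exact ⟨z, hz, N, by linarith, by linarith, by linarith⟩
  have hcomp : ∀ (R : ℂ) (ε C : ℝ), 0 ≤ C → (∀ z ∈ K d c, ∀ N : ℕ,
      ‖R * W d c (fun _ => 1) z N‖ ≤ ε * S d c z N + C * (1 + ‖E d c z 0 N‖)) →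
      a * ‖R‖ ≤ ε := by
    intro R ε C hC h
    by_contra hcon
    push Not at hcon
    obtain ⟨B, hB⟩ : ∃ B, B = (C + 1) / (a * ‖R‖ - ε) := ⟨_, rfl⟩
    have hpos : 0 < a * ‖R‖ - ε := by linarith
    have hB0 : 0 < B := by rw [hB]; positivity
    obtain ⟨z, hz, N, h1, h2, h3⟩ := hNC B hB0
    have h4 := h z hz N
    rw [norm_mul] at h4
    have h5 : ‖R‖ * (a * S d c z N) ≤ ‖R‖ * ‖W d c (fun _ => 1) z N‖ := by gcongr
    have h6 : (a * ‖R‖ - ε) * S d c z N ≤ C * (1 + ‖E d c z 0 N‖) := by nlinarith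
    have h7 : (a * ‖R‖ - ε) * (B * (1 + ‖E d c z 0 N‖)) ≤ (a * ‖R‖ - ε) * S d c z N := by
      gcongr
    have h8 : (a * ‖R‖ - ε) * (B * (1 + ‖E d c z 0 N‖)) = (C + 1) * (1 + ‖E d c z 0 N‖) := by
      rw [hB]; field_simp
    have h9 := norm_nonneg (E d c z 0 N)
    nlinarith
  refine ⟨1 / a, by positivity, ?_⟩
  intro φ hφ hφ'
  have hw : ∀ k : ℕ, ∃ (R : ℂ) (C : ℝ), 0 ≤ C ∧ ∀ z ∈ K d c, ∀ N : ℕ,
      ‖W d c (fun w => φ w - R) z N‖ ≤
        1 / ((k : ℝ) + 1) * S d c z N + C * (1 + ‖E d c z 0 N‖) := fun k =>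
    weights hd hc hφ hφ' (by positivity)
  choose R C hC hRC using hw
  have hdiff : ∀ (R₁ R₂ : ℂ) (ε₁ ε₂ C₁ C₂ : ℝ), 0 ≤ C₁ → 0 ≤ C₂ →
      (∀ z ∈ K d c, ∀ N : ℕ, ‖W d c (fun w => φ w - R₁) z N‖ ≤
        ε₁ * S d c z N + C₁ * (1 + ‖E d c z 0 N‖)) →
      (∀ z ∈ K d c, ∀ N : ℕ, ‖W d c (fun w => φ w - R₂) z N‖ ≤
        ε₂ * S d c z N + C₂ * (1 + ‖E d c z 0 N‖)) → a * ‖R₁ - R₂‖ ≤ ε₁ + ε₂ := by
    intro R₁ R₂ ε₁ ε₂ C₁ C₂ hC₁ hC₂ h1 h2
    refine hcomp (R₁ - R₂) (ε₁ + ε₂) (C₁ + C₂) (by positivity) fun z hz N => ?_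
    have e : (R₁ - R₂) * W d c (fun _ => 1) z N =
        W d c (fun w => φ w - R₂) z N - W d c (fun w => φ w - R₁) z N := by
      rw [W_sub_const, W_sub_const]; ring
    rw [e]
    refine (norm_sub_le _ _).trans ?_
    have h3 := h1 z hz N
    have h4 := h2 z hz N
    linarith
  have hcau : CauchySeq R := by
    have h1 : ∀ k l, k ≤ l → dist (R k) (R l) ≤ 2 / a * (1 / ((k : ℝ) + 1)) := by
      intro k l hkl
      have h2 := hdiff (R k) (R l) _ _ (C k) (C l) (hC k) (hC l) (hRC k) (hRC l)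
      have h3 : 1 / ((l : ℝ) + 1) ≤ 1 / ((k : ℝ) + 1) := by
        apply one_div_le_one_div_of_le (by positivity)
        have : (k : ℝ) ≤ l := by exact_mod_cast hkl
        linarith
      rw [dist_eq_norm, div_mul_eq_mul_div, le_div_iff₀ ha]
      linarith
    refine cauchySeq_of_le_tendsto_0' (fun k : ℕ => 2 / a * (1 / ((k : ℝ) + 1))) h1 ?_
    have h2 := (tendsto_one_div_add_atTop_nhds_zero_nat (𝕜 := ℝ)).const_mul (2 / a)
    rwa [mul_zero] at h2
  obtain ⟨ρ, hρ⟩ := cauchySeq_tendsto_of_complete hcau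
  have hRρ : ∀ k, a * ‖R k - ρ‖ ≤ 2 * (1 / ((k : ℝ) + 1)) := by
    intro k
    have h1 : Tendsto (fun l => a * ‖R k - R l‖) atTop (𝓝 (a * ‖R k - ρ‖)) :=
      ((tendsto_const_nhds.sub hρ).norm).const_mul a
    refine le_of_tendsto h1 ?_
    filter_upwards [eventually_ge_atTop k] with l hkl
    have h2 := hdiff (R k) (R l) _ _ (C k) (C l) (hC k) (hC l) (hRC k) (hRC l)
    have h3 : 1 / ((l : ℝ) + 1) ≤ 1 / ((k : ℝ) + 1) := by
      apply one_div_le_one_div_of_le (by positivity)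
      have : (k : ℝ) ≤ l := by exact_mod_cast hkl
      linarith
    linarith
  have hlim : ∀ ε : ℝ, 0 < ε → ∃ C : ℝ, 0 ≤ C ∧ ∀ z ∈ K d c, ∀ N : ℕ,
      ‖W d c (fun w => φ w - ρ) z N‖ ≤ ε * S d c z N + C * (1 + ‖E d c z 0 N‖) := by
    intro ε hε
    obtain ⟨k, hk⟩ := exists_nat_one_div_lt (show 0 < ε / (1 + 2 / a) by positivity)
    refine ⟨C k, hC k, fun z hz N => ?_⟩
    have e : W d c (fun w => φ w - ρ) z N =
        W d c (fun w => φ w - R k) z N + (R k - ρ) * W d c (fun _ => 1) z N := by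
      rw [W_sub_const, W_sub_const]; ring
    rw [e]
    refine (norm_add_le _ _).trans ?_
    rw [norm_mul]
    have h1 := hRC k z hz N
    have h2 := S_le (d := d) (c := c) (z := z) (fun _ => 1) (fun _ => by simp) N
    have h3 : ‖R k - ρ‖ ≤ 2 / a * (1 / ((k : ℝ) + 1)) := by
      rw [div_mul_eq_mul_div, le_div_iff₀ ha]
      linarith [hRρ k]
    have h4 : ‖R k - ρ‖ * ‖W d c (fun _ => 1) z N‖ ≤
        2 / a * (1 / ((k : ℝ) + 1)) * S d c z N := by
      gcongr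
    have h5 : (1 + 2 / a) * (1 / ((k : ℝ) + 1)) ≤ ε := by
      rw [lt_div_iff₀ (by positivity)] at hk
      linarith
    have h6 := S_nonneg (d := d) (c := c) (z := z) N
    have h7 : (1 + 2 / a) * (1 / ((k : ℝ) + 1)) * S d c z N ≤ ε * S d c z N := by gcongr
    linarith
  refine ⟨ρ, ?_, fun ε hε => ?_, ?_⟩
  · intro M hM
    have h1 : ∀ ε : ℝ, 0 < ε → a * ‖ρ‖ ≤ M + ε := by
      intro ε hε
      obtain ⟨C', hC', h⟩ := hlim ε hε
      refine hcomp ρ (M + ε) C' hC' fun z hz N => ?_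
      have e : ρ * W d c (fun _ => 1) z N =
          W d c φ z N - W d c (fun w => φ w - ρ) z N := by
        rw [W_sub_const]; ring
      rw [e]
      refine (norm_sub_le _ _).trans ?_
      have h2 := norm_W_le hM hz N
      have h3 := h z hz N
      linarith
    have h2 := le_of_forall_pos_le_add h1
    rw [div_mul_eq_mul_div, one_mul, le_div_iff₀ ha]
    linarith
  · obtain ⟨C', -, h⟩ := hlim ε hε
    exact ⟨C', h⟩
  · intro ρ' hρ'
    have h1 : ∀ ε : ℝ, 0 < ε → a * ‖ρ' - ρ‖ ≤ 0 + ε := by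
      intro ε hε
      obtain ⟨C₁, hC₁, h1⟩ := hlim (ε / 2) (by positivity)
      obtain ⟨C₂, h2⟩ := hρ' (ε / 2) (by positivity)
      have h3 := hdiff ρ' ρ (ε / 2) (ε / 2) (max C₂ 0) C₁ (le_max_right _ _) hC₁
        (fun z hz N => (h2 z hz N).trans (by
          have h4 : 0 ≤ 1 + ‖E d c z 0 N‖ := by positivity
          have h5 := mul_le_mul_of_nonneg_right (le_max_left C₂ 0) h4
          linarith)) h1
      linarith
    have h2 := le_of_forall_pos_le_add h1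
    have h3 : ‖ρ' - ρ‖ ≤ 0 := by
      by_contra hcon
      push Not at hcon
      have := mul_pos ha hcon
      linarith
    rw [← sub_eq_zero]
    exact norm_le_zero_iff.mp h3

/-- coherent directions along the critical orbit -/
theorem coh_critical (hd : 2 ≤ d) (hc : c ∈ multibrotSet d) (hint : interior (K d c) = ∅)
    {δ a : ℝ} (hδ : 0 < δ) (ha : 0 < a)
    (hcoh : ∀ i k : ℕ, 1 ≤ i → 1 ≤ k → ‖(f d c)^[i + k] 0 - (f d c)^[i] 0‖ < δ →
      a * ‖E d c 0 i (i + k)‖ ≤ (E d c 0 i (i + k)).re) : c ∈ closure (hyp d) := by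
  by_cases h0 : ∀ i, 1 ≤ i → (f d c)^[i] 0 ≠ 0
  swap
  · push Not at h0
    obtain ⟨i, hi, h⟩ := h0
    refine subset_closure ⟨i, 0, by omega, h, ?_, ?_⟩
    · exact (Pool.Agent.X151.LF.diff_iter d c i).differentiableAt
    · rw [deriv_iter, E_zero_zero hd hi, norm_zero]
      exact one_pos
  by_contra hcl
  have hK0 := zero_mem_K hd hc
  obtain ⟨φ, hφ, b, hb, h1⟩ := coh_weight hK0 hd h0 hδ ha hcoh
  obtain ⟨C, hC, -, h2⟩ := cancel hd hc hcl hφ.continuousOn (by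
    rw [hint]
    exact differentiableOn_empty) (half_pos hb)
  have hS : ∀ N, S d c 0 N ≤ C / (b / 2) := by
    intro N
    rw [le_div_iff₀ (by positivity)]
    have h3 := h1 N
    have h4 := h2 N
    linarith
  have hcK : c ∈ K d c := by
    have := iter_mem hK0 1
    rw [Function.iterate_one] at this
    have e : f d c 0 = c := by
      unfold f
      rw [zero_pow (by omega), zero_add]
    rwa [e] at this
  have hsh : ∀ j N, E d c c j N = E d c 0 (j + 1) (N + 1) := by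
    intro j N
    unfold E
    rw [← Finset.prod_Ico_add' (fun i => df d c 0 i) j N 1]
    apply Finset.prod_congr rfl
    intro i _
    have e : f d c 0 = c := by
      unfold f
      rw [zero_pow (by omega), zero_add]
    rw [← iter_succ_shift, e]
  have hsum : ∀ N, ‖E d c c 0 N‖ + S d c c N = S d c 0 (N + 1) := by
    intro N
    unfold S
    simp only [hsh]
    rw [zero_add]
    have e1 : Finset.Icc 1 (N + 1) = insert 1 (Finset.Icc 2 (N + 1)) := by
      ext x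
      simp only [Finset.mem_Icc, Finset.mem_insert]
      omega
    rw [e1, Finset.sum_insert (by simp)]
    congr 1
    have e2 : Finset.Icc 2 (N + 1) = (Finset.Icc 1 N).image (· + 1) := by
      ext x
      simp only [Finset.mem_Icc, Finset.mem_image]
      constructor
      · intro hx
        exact ⟨x - 1, by omega, by omega⟩
      · rintro ⟨y, hy, rfl⟩
        omega
    rw [e2, Finset.sum_image (by intro x _ y _ hxy; simpa using hxy)]
  have h3 := contraction hd hc hcK (B := C / (b / 2)) fun N => by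
    rw [hsum]
    exact hS _
  rw [hint] at h3
  exact h3

/-- coherent directions along an orbit with a divergent series -/
theorem coh_orbit (hd : 2 ≤ d) (hc : c ∈ multibrotSet d) (hint : interior (K d c) = ∅)
    (hz : z ∈ K d c) (h0 : ∀ i, (f d c)^[i] z ≠ 0)
    (hdiv : ¬ Summable fun j : ℕ => ‖E d c z 0 j‖⁻¹)
    {δ a : ℝ} (hδ : 0 < δ) (ha : 0 < a)
    (hcoh : ∀ i k : ℕ, 1 ≤ i → 1 ≤ k → ‖(f d c)^[i + k] z - (f d c)^[i] z‖ < δ →
      a * ‖E d c z i (i + k)‖ ≤ (E d c z i (i + k)).re) : c ∈ closure (hyp d) := by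
  by_contra hcl
  have hKc : IsClosed (K d c) := Pool.Agent.X151.LF.isClosed_K hd c
  have hzf : z ∈ frontier (K d c) := by
    rw [frontier, hint, hKc.closure_eq, sdiff_empty]
    exact hz
  obtain ⟨φ, hφ, b, hb, h1⟩ := coh_weight hz hd (fun i _ => h0 i) hδ ha hcoh
  obtain ⟨C, hC, h2, -⟩ := cancel hd hc hcl hφ.continuousOn (by
    rw [hint]
    exact differentiableOn_empty) (half_pos hb)
  have hS : ∀ N, b / 2 * S d c z N ≤ C * (1 + ‖E d c z 0 N‖) := by
    intro N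
    have h3 := h1 N
    have h4 := h2 z hzf N
    linarith
  have hE0 : ∀ j, E d c z 0 j ≠ 0 := by
    intro j
    unfold E
    refine Finset.prod_ne_zero_iff.mpr fun i _ => ?_
    unfold df
    have : (d : ℂ) ≠ 0 := by exact_mod_cast (by omega : d ≠ 0)
    exact mul_ne_zero this (pow_ne_zero _ (h0 i))
  have hEn : ∀ j, 0 < ‖E d c z 0 j‖ := fun j => norm_pos_iff.mpr (hE0 j)
  have hSs : ∀ N, S d c z N = ‖E d c z 0 N‖ * ∑ j ∈ Finset.Icc 1 N, ‖E d c z 0 j‖⁻¹ := by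
    intro N
    unfold S
    rw [Finset.mul_sum]
    apply Finset.sum_congr rfl
    intro j hj
    rw [← E_mul (Nat.zero_le j) (Finset.mem_Icc.mp hj).2, norm_mul]
    have := hEn j
    field_simp
  -- the partial sums tend to infinity
  have htend : Tendsto (fun N => ∑ j ∈ Finset.Icc 1 N, ‖E d c z 0 j‖⁻¹) atTop atTop := by
    have h3 := (not_summable_iff_tendsto_nat_atTop_of_nonneg
      (fun j => (inv_pos.mpr (hEn j)).le)).mp hdiv
    have h4 : Tendsto (fun N => ∑ j ∈ Finset.range (N + 1), ‖E d c z 0 j‖⁻¹) atTop atTop :=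
      h3.comp (tendsto_add_atTop_nat 1)
    have h5 : ∀ N, ∑ j ∈ Finset.Icc 1 N, ‖E d c z 0 j‖⁻¹ =
        (∑ j ∈ Finset.range (N + 1), ‖E d c z 0 j‖⁻¹) + (-1) := by
      intro N
      rw [Finset.sum_range_succ', E_self, norm_one, inv_one, add_neg_cancel_right]
      rw [Finset.range_eq_Ico, Finset.sum_Ico_add' (fun j => ‖E d c z 0 j‖⁻¹) 0 N 1]
      rfl
    simp only [h5]
    exact tendsto_atTop_add_const_right _ _ h4
  have hev : ∀ᶠ N in atTop, ‖E d c z 0 N‖ + S d c z N ≤ 4 * C / b + 4 * C / b := by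
    filter_upwards [htend.eventually_ge_atTop (4 * C / b), htend.eventually_ge_atTop 1]
      with N h3 h4
    have h5 := hS N
    have h6 := hEn N
    have h7 : 4 * C ≤ b * ∑ j ∈ Finset.Icc 1 N, ‖E d c z 0 j‖⁻¹ := by
      rw [div_le_iff₀ hb] at h3
      linarith
    have h8 : ‖E d c z 0 N‖ * (4 * C) ≤ b * S d c z N := by
      rw [hSs]
      calc ‖E d c z 0 N‖ * (4 * C) ≤
            ‖E d c z 0 N‖ * (b * ∑ j ∈ Finset.Icc 1 N, ‖E d c z 0 j‖⁻¹) := by gcongr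
        _ = _ := by ring
    have h9 : S d c z N ≤ 4 * C / b := by
      rw [le_div_iff₀ hb]
      nlinarith
    have h10 : ‖E d c z 0 N‖ ≤ S d c z N := by
      rw [hSs]
      exact le_mul_of_one_le_right h6.le h4
    linarith
  obtain ⟨N₀, hN₀⟩ := eventually_atTop.mp hev
  obtain ⟨B, hB⟩ : ∃ B : ℝ, ∀ N, ‖E d c z 0 N‖ + S d c z N ≤ B := by
    refine ⟨(4 * C / b + 4 * C / b) +
      ∑ N ∈ Finset.range N₀, (‖E d c z 0 N‖ + S d c z N), fun N => ?_⟩
    have hnn : ∀ N, 0 ≤ ‖E d c z 0 N‖ + S d c z N := fun N =>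
      add_nonneg (norm_nonneg _) (S_nonneg N)
    rcases Nat.lt_or_ge N N₀ with h | h
    · have h3 := Finset.single_le_sum (f := fun N => ‖E d c z 0 N‖ + S d c z N)
        (fun N _ => hnn N) (Finset.mem_range.mpr h)
      have h4 : 0 ≤ 4 * C / b := by positivity
      linarith
    · have h3 := hN₀ N h
      have h4 := Finset.sum_nonneg (s := Finset.range N₀) fun N _ => hnn N
      linarith
  have h3 := contraction hd hc hz hB
  rw [hint] at h3
  exact h3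

end Pool.Agent.Helper30.PC
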