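import Pool.Agent.Helper30.PC.Sector

/-!
# Continuous direction fields at the visits to a set
-/

set_option autoImplicit false
open Set Filter Topology Metric N62a1eb23

namespace Pool.Agent.Helper30.PC

variable {d : ℕ} {c z : ℂ}

open Classical in
/-- directions near a continuous field at the visits to a set which carry a part of the series -/
theorem local_field (hd : 2 ≤ d) (hc : c ∈ multibrotSet d) (hint : interior (K d c) = ∅)
    (hz : z ∈ K d c) (h0 : ∀ i, (f d c)^[i] z ≠ 0)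
    (hdiv : ¬ Summable fun j : ℕ => ‖E d c z 0 j‖⁻¹) {u : ℂ → ℂ} (hu : ContinuousOn u (K d c))
    {A : Set ℂ} {δ a' C₀ : ℝ} (hδ : 0 < δ) (ha' : 0 < a') {n₀ : ℕ}
    (hsec : ∀ k, n₀ ≤ k → infDist ((f d c)^[k] z) A < δ →
      ‖E d c z 0 k‖ ≤ ((starRingEnd ℂ) (u ((f d c)^[k] z)) * E d c z 0 k).re)
    (hprop : ∀ N, a' * ∑ j ∈ Finset.Icc 1 N, ‖E d c z 0 j‖⁻¹ ≤
      C₀ + ∑ j ∈ (Finset.Icc 1 N).filter (fun j => (f d c)^[j] z ∈ A),
        ‖E d c z 0 j‖⁻¹) : c ∈ closure (hyp d) := by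
  by_contra hcl
  have hEn : ∀ j, 0 < ‖E d c z 0 j‖ := fun j => norm_pos_iff.mpr (E_ne hd h0 0 j)
  obtain ⟨ψ, hψ⟩ : ∃ ψ : ℂ → ℝ, ∀ x, ψ x = max 0 (δ - infDist x A) := ⟨_, fun _ => rfl⟩
  have hψc' : Continuous ψ := by
    have : ψ = fun x => max 0 (δ - infDist x A) := funext hψ
    rw [this]
    exact continuous_const.max (continuous_const.sub (continuous_infDist_pt A))
  have hψc : ContinuousOn (fun x => (ψ x : ℂ) * u x) (K d c) :=
    (Complex.continuous_ofReal.comp hψc').continuousOn.mul hu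
  have hψ0 : ∀ x, 0 ≤ ψ x := fun x => by rw [hψ]; exact le_max_left _ _
  have hψ1 : ∀ x, ψ x ≤ δ := fun x => by
    rw [hψ]
    refine max_le hδ.le ?_
    have : 0 ≤ infDist x A := infDist_nonneg
    linarith
  obtain ⟨U, hU⟩ : ∃ U : ℝ, ∀ x ∈ K d c, ‖u x‖ ≤ U :=
    IsCompact.exists_bound_of_continuousOn (Pool.Agent.X151.LF.isCompact_K hd c) hu
  have hU0 : 0 ≤ U := (norm_nonneg _).trans (hU z hz)
  obtain ⟨C₁, hC₁⟩ : ∃ C₁, C₁ = (U + 1) * δ * ∑ j ∈ Finset.range n₀, ‖E d c z 0 j‖⁻¹ := ⟨_, rfl⟩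
  have hC₁0 : 0 ≤ C₁ := by
    rw [hC₁]
    exact mul_nonneg (by positivity) (Finset.sum_nonneg fun j _ => (inv_pos.mpr (hEn j)).le)
  have hre : ∀ j, (((ψ ((f d c)^[j] z) : ℂ) * u ((f d c)^[j] z)) / E d c z 0 j).re =
      ψ ((f d c)^[j] z) * (((starRingEnd ℂ) (u ((f d c)^[j] z)) * E d c z 0 j).re *
        (‖E d c z 0 j‖⁻¹) ^ 2) := by
    intro j
    have e1 : ((ψ ((f d c)^[j] z) : ℂ) * u ((f d c)^[j] z)) / E d c z 0 j =
        ((ψ ((f d c)^[j] z) * (‖E d c z 0 j‖⁻¹) ^ 2 : ℝ) : ℂ) *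
          (u ((f d c)^[j] z) * (starRingEnd ℂ) (E d c z 0 j)) := by
      have h1 : E d c z 0 j * (starRingEnd ℂ) (E d c z 0 j) = ((‖E d c z 0 j‖ ^ 2 : ℝ) : ℂ) := by
        rw [Complex.mul_conj, Complex.normSq_eq_norm_sq]
      have h2 := E_ne hd h0 0 j
      have h3 : ((‖E d c z 0 j‖ : ℝ) : ℂ) ≠ 0 := by exact_mod_cast (hEn j).ne'
      rw [div_eq_iff h2]
      push_cast at h1 ⊢
      have h4 : (ψ ((f d c)^[j] z) : ℂ) * ((‖E d c z 0 j‖ : ℂ)⁻¹) ^ 2 *
          (u ((f d c)^[j] z) * (starRingEnd ℂ) (E d c z 0 j)) * E d c z 0 j =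
          (ψ ((f d c)^[j] z) : ℂ) * u ((f d c)^[j] z) * (((‖E d c z 0 j‖ : ℂ)⁻¹) ^ 2 *
            (E d c z 0 j * (starRingEnd ℂ) (E d c z 0 j))) := by ring
      rw [h4, h1, inv_pow, inv_mul_cancel₀ (pow_ne_zero 2 h3), mul_one]
    rw [e1, Complex.re_ofReal_mul]
    have e2 : (u ((f d c)^[j] z) * (starRingEnd ℂ) (E d c z 0 j)).re =
        ((starRingEnd ℂ) (u ((f d c)^[j] z)) * E d c z 0 j).re := by
      simp only [Complex.mul_re, Complex.conj_re, Complex.conj_im]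
      ring
    rw [e2]
    ring
  have hterm : ∀ j, ψ ((f d c)^[j] z) * ‖E d c z 0 j‖⁻¹ -
      (if j < n₀ then (U + 1) * δ * ‖E d c z 0 j‖⁻¹ else 0) ≤
      (((ψ ((f d c)^[j] z) : ℂ) * u ((f d c)^[j] z)) / E d c z 0 j).re := by
    intro j
    have h5 := hEn j
    split_ifs with h
    · have h1 : -(δ * U * ‖E d c z 0 j‖⁻¹) ≤
          (((ψ ((f d c)^[j] z) : ℂ) * u ((f d c)^[j] z)) / E d c z 0 j).re := by
        have h2 := Complex.abs_re_le_norm (((ψ ((f d c)^[j] z) : ℂ) * u ((f d c)^[j] z)) /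
          E d c z 0 j)
        rw [norm_div, norm_mul, Complex.norm_real, Real.norm_of_nonneg (hψ0 _),
          div_eq_mul_inv] at h2
        have h3 : ψ ((f d c)^[j] z) * ‖u ((f d c)^[j] z)‖ * ‖E d c z 0 j‖⁻¹ ≤
            δ * U * ‖E d c z 0 j‖⁻¹ := by
          have h6 := hU _ (iter_mem hz j)
          have h7 := hψ1 ((f d c)^[j] z)
          gcongr
        exact (neg_le_neg h3).trans (abs_le.mp h2).1
      have h2 : ψ ((f d c)^[j] z) * ‖E d c z 0 j‖⁻¹ ≤ δ * ‖E d c z 0 j‖⁻¹ := by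
        gcongr
        exact hψ1 _
      nlinarith
    · rw [hre, sub_zero]
      rcases (hψ0 ((f d c)^[j] z)).eq_or_lt with h1 | h1
      · rw [← h1]; simp
      have h2 : infDist ((f d c)^[j] z) A < δ := by
        rw [hψ] at h1
        rcases lt_max_iff.mp h1 with h4 | h4
        · exact absurd h4 (lt_irrefl _)
        · linarith
      have h3 := hsec j (by omega) h2
      calc ψ ((f d c)^[j] z) * ‖E d c z 0 j‖⁻¹ =
            ψ ((f d c)^[j] z) * (‖E d c z 0 j‖ * (‖E d c z 0 j‖⁻¹) ^ 2) := by field_simp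
        _ ≤ _ := by gcongr
  refine no_pos hd hc hint hcl hz h0 hdiv hψc
    (b := δ * a') (C₀ := C₁ + δ * |C₀|) (by positivity) (by positivity) ?_
  intro N
  rw [W_div hd h0, S_div hd h0, norm_mul]
  have h1 : δ * a' * ∑ j ∈ Finset.Icc 1 N, ‖E d c z 0 j‖⁻¹ - (C₁ + δ * |C₀|) ≤
      (∑ j ∈ Finset.Icc 1 N, ((ψ ((f d c)^[j] z) : ℂ) * u ((f d c)^[j] z)) / E d c z 0 j).re := by
    rw [Complex.re_sum]
    have h2 := Finset.sum_le_sum (s := Finset.Icc 1 N) fun j _ => hterm j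
    rw [Finset.sum_sub_distrib] at h2
    have h3 : ∑ j ∈ Finset.Icc 1 N, (if j < n₀ then (U + 1) * δ * ‖E d c z 0 j‖⁻¹ else 0) ≤
        C₁ := by
      rw [hC₁, Finset.mul_sum, ← Finset.sum_filter]
      apply Finset.sum_le_sum_of_subset_of_nonneg
      · intro j hj
        exact Finset.mem_range.mpr (Finset.mem_filter.mp hj).2
      · intro j _ _
        have := hEn j
        positivity
    have h4 : δ * ∑ j ∈ (Finset.Icc 1 N).filter (fun j => (f d c)^[j] z ∈ A),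
        ‖E d c z 0 j‖⁻¹ ≤ ∑ j ∈ Finset.Icc 1 N, ψ ((f d c)^[j] z) * ‖E d c z 0 j‖⁻¹ := by
      rw [Finset.mul_sum, Finset.sum_filter]
      apply Finset.sum_le_sum
      intro j _
      have h5 := hEn j
      split_ifs with h
      · have h6 : δ ≤ ψ ((f d c)^[j] z) := by
          rw [hψ, infDist_zero_of_mem h, sub_zero]
          exact le_max_right _ _
        gcongr
      · exact mul_nonneg (hψ0 _) (inv_pos.mpr h5).le
    have h5 := hprop N
    have h6 : δ * (a' * ∑ j ∈ Finset.Icc 1 N, ‖E d c z 0 j‖⁻¹) ≤ δ *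
        (C₀ + ∑ j ∈ (Finset.Icc 1 N).filter (fun j => (f d c)^[j] z ∈ A),
        ‖E d c z 0 j‖⁻¹) := by gcongr
    have h7 : δ * C₀ ≤ δ * |C₀| := by
      gcongr
      exact le_abs_self _
    linarith
  have h2 := h1.trans (Complex.re_le_norm _)
  have h3 := mul_le_mul_of_nonneg_left h2 (norm_nonneg (E d c z 0 N))
  linarith

open Classical in
/-- the visits of the orbit of the critical value to a set which contains its points near the
critical value carry a part of the series if their gaps are bounded -/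
theorem syndetic (hd : 2 ≤ d) (hc : c ∈ multibrotSet d) (h0 : ∀ i, (f d c)^[i] c ≠ 0) {A : Set ℂ}
    {δ : ℝ} (hδ : 0 < δ) (hA : ∀ j, ‖(f d c)^[j] c - c‖ < δ → (f d c)^[j] c ∈ A) {L : ℕ}
    (hL : ∀ j, ∃ k ≤ L, (f d c)^[j + k] c ∈ A) :
    ∃ a' : ℝ, 0 < a' ∧ ∀ N, a' * ∑ j ∈ Finset.Icc 1 N, ‖E d c c 0 j‖⁻¹ ≤
      1 + ∑ j ∈ (Finset.Icc 1 N).filter (fun j => (f d c)^[j] c ∈ A), ‖E d c c 0 j‖⁻¹ := by
  have hEn : ∀ j, 0 < ‖E d c c 0 j‖ := fun j => norm_pos_iff.mpr (E_ne hd h0 0 j)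
  have hcK : c ∈ K d c := by
    have := iter_mem (zero_mem_K hd hc) 1
    rwa [Function.iterate_one, f_zero hd] at this
  obtain ⟨m, hm⟩ : ∃ m, m = min 1 δ := ⟨_, rfl⟩
  have hm0 : 0 < m := by rw [hm]; exact lt_min one_pos hδ
  have hm1 : m ≤ 1 := by rw [hm]; exact min_le_left _ _
  have hmδ : m ≤ δ := by rw [hm]; exact min_le_right _ _
  obtain ⟨M, hM⟩ : ∃ M, M = (m ^ L)⁻¹ := ⟨_, rfl⟩
  have hM1 : 1 ≤ M := by
    rw [hM]
    exact (one_le_inv₀ (pow_pos hm0 L)).mpr (pow_le_one₀ hm0.le hm1)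
  -- visits
  obtain ⟨v, hv⟩ : ∃ v : ℕ → Prop, ∀ j, v j ↔ (f d c)^[j] c ∈ A := ⟨_, fun _ => Iff.rfl⟩
  have hdf : ∀ i, ¬ v (i + 1) → m ≤ ‖df d c c i‖ := by
    intro i hi
    rw [hv] at hi
    have hi := not_lt.mp fun h => hi (hA _ h)
    rw [Function.iterate_succ_apply'] at hi
    have e1 : f d c ((f d c)^[i] c) - c = ((f d c)^[i] c) ^ d := by
      change ((f d c)^[i] c) ^ d + c - c = _
      ring
    rw [e1, norm_pow] at hi
    unfold df
    rw [norm_mul, norm_pow, Complex.norm_natCast]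
    have h1 := norm_le_two hd hc (iter_mem hcK i)
    obtain ⟨x, hx⟩ : ∃ x, x = ‖(f d c)^[i] c‖ := ⟨_, rfl⟩
    rw [← hx] at hi h1 ⊢
    have hx0 : 0 ≤ x := by rw [hx]; exact norm_nonneg _
    have h2 : x ^ d = x ^ (d - 1) * x := by rw [← pow_succ, Nat.sub_add_cancel (by omega)]
    have h3 : x ^ (d - 1) * x ≤ x ^ (d - 1) * 2 := by gcongr
    have h4 : (2 : ℝ) ≤ d := by exact_mod_cast hd
    have h5 : 2 * x ^ (d - 1) ≤ d * x ^ (d - 1) := by gcongr
    linarith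
  have hEk : ∀ k j, k ≤ j → j ≤ k + L → (∀ i, k < i → i ≤ j → ¬ v i) →
      ‖E d c c 0 j‖⁻¹ ≤ M * ‖E d c c 0 k‖⁻¹ := by
    intro k j hkj hjL hno
    rw [← E_mul (Nat.zero_le k) hkj, norm_mul, mul_inv, mul_comm]
    have h1 : m ^ L ≤ ‖E d c c k j‖ := by
      unfold E
      rw [norm_prod]
      calc m ^ L ≤ m ^ (j - k) := pow_le_pow_of_le_one hm0.le hm1 (by omega)
        _ = ∏ i ∈ Finset.Ico k j, m := by rw [Finset.prod_const, Nat.card_Ico]
        _ ≤ _ := by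
          apply Finset.prod_le_prod
          · intro i _; exact hm0.le
          · intro i hi
            obtain ⟨hi1, hi2⟩ := Finset.mem_Ico.mp hi
            exact hdf i (hno (i + 1) (by omega) (by omega))
    have h2 : ‖E d c c k j‖⁻¹ ≤ M := by
      rw [hM]
      exact inv_anti₀ (pow_pos hm0 L) h1
    have := hEn k
    gcongr
  have hL0 : (0 : ℝ) ≤ L := Nat.cast_nonneg L
  have hmain : ∀ N, ∃ k ≤ N, v k ∧ (∀ i, k < i → i ≤ N → ¬ v i) ∧
      ∑ j ∈ Finset.range (N + 1), ‖E d c c 0 j‖⁻¹ ≤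
        ((L : ℝ) + 1) * M * (∑ j ∈ (Finset.range (N + 1)).filter v, ‖E d c c 0 j‖⁻¹ -
          ‖E d c c 0 k‖⁻¹) + ((N : ℝ) - k + 1) * M * ‖E d c c 0 k‖⁻¹ := by
    intro N
    induction N with
    | zero =>
      have hv0 : v 0 := by rw [hv]; exact hA 0 (by simp [hδ])
      refine ⟨0, le_rfl, hv0, fun i h1 h2 => by omega, ?_⟩
      have e1 : (Finset.range (0 + 1)).filter v = {0} := by
        rw [zero_add, Finset.range_one, Finset.filter_singleton, if_pos hv0]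
      rw [e1, zero_add, Finset.range_one, Finset.sum_singleton, E_self]
      simp
      exact hM1
    | succ N ih =>
      obtain ⟨k, hkN, hvk, hno, hle⟩ := ih
      have hNk : N ≤ k + L := by
        obtain ⟨i, hi, h1⟩ := hL (k + 1)
        rw [← hv] at h1
        by_contra hcon
        exact hno (k + 1 + i) (by omega) (by omega) h1
      have hkR : (k : ℝ) ≤ N := by exact_mod_cast hkN
      have hNkR : (N : ℝ) ≤ k + L := by exact_mod_cast hNk
      have hEk0 := inv_pos.mpr (hEn k)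
      rw [Finset.sum_range_succ]
      by_cases hv1 : v (N + 1)
      · refine ⟨N + 1, le_rfl, hv1, fun i h1 h2 => by omega, ?_⟩
        have e1 : ∑ j ∈ (Finset.range (N + 1 + 1)).filter v, ‖E d c c 0 j‖⁻¹ =
            ∑ j ∈ (Finset.range (N + 1)).filter v, ‖E d c c 0 j‖⁻¹ + ‖E d c c 0 (N + 1)‖⁻¹ := by
          rw [Finset.sum_filter, Finset.sum_range_succ, if_pos hv1, ← Finset.sum_filter]
        rw [e1]
        have h1 : 0 ≤ ‖E d c c 0 (N + 1)‖⁻¹ := (inv_pos.mpr (hEn _)).le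
        have h2 : ‖E d c c 0 (N + 1)‖⁻¹ ≤ M * ‖E d c c 0 (N + 1)‖⁻¹ :=
          le_mul_of_one_le_left h1 hM1
        have h3 : ((N : ℝ) - k + 1) * M * ‖E d c c 0 k‖⁻¹ ≤
            ((L : ℝ) + 1) * M * ‖E d c c 0 k‖⁻¹ := by
          gcongr
          linarith
        push_cast
        have e2 : (N : ℝ) + 1 - (N + 1) + 1 = 1 := by ring
        rw [e2]
        linarith
      · have hno' : ∀ i, k < i → i ≤ N + 1 → ¬ v i := by
          intro i h1 h2
          rcases (by omega : i ≤ N ∨ i = N + 1) with h3 | h3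
          · exact hno i h1 h3
          · rw [h3]; exact hv1
        have hNk1 : N + 1 ≤ k + L := by
          obtain ⟨i, hi, h1⟩ := hL (k + 1)
          rw [← hv] at h1
          by_contra hcon
          exact hno' (k + 1 + i) (by omega) (by omega) h1
        refine ⟨k, by omega, hvk, hno', ?_⟩
        have e1 : ∑ j ∈ (Finset.range (N + 1 + 1)).filter v, ‖E d c c 0 j‖⁻¹ =
            ∑ j ∈ (Finset.range (N + 1)).filter v, ‖E d c c 0 j‖⁻¹ := by
          rw [Finset.sum_filter, Finset.sum_range_succ, if_neg hv1, ← Finset.sum_filter, add_zero]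
        rw [e1]
        have h1 := hEk k (N + 1) (by omega) hNk1 hno'
        push_cast
        have e2 : ((N : ℝ) + 1 - k + 1) * M * ‖E d c c 0 k‖⁻¹ =
            ((N : ℝ) - k + 1) * M * ‖E d c c 0 k‖⁻¹ + M * ‖E d c c 0 k‖⁻¹ := by ring
        rw [e2]
        linarith
  refine ⟨(((L : ℝ) + 1) * M)⁻¹, by positivity, fun N => ?_⟩
  obtain ⟨k, hkN, hvk, hno, hle⟩ := hmain N
  have hNk : N ≤ k + L := by
    obtain ⟨i, hi, h1⟩ := hL (k + 1)
    rw [← hv] at h1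
    by_contra hcon
    exact hno (k + 1 + i) (by omega) (by omega) h1
  have hNkR : (N : ℝ) ≤ k + L := by exact_mod_cast hNk
  have hEk0 := inv_pos.mpr (hEn k)
  have h3 : ((N : ℝ) - k + 1) * M * ‖E d c c 0 k‖⁻¹ ≤
      ((L : ℝ) + 1) * M * ‖E d c c 0 k‖⁻¹ := by
    gcongr
    linarith
  have h4 : ∑ j ∈ Finset.range (N + 1), ‖E d c c 0 j‖⁻¹ ≤
      ((L : ℝ) + 1) * M * ∑ j ∈ (Finset.range (N + 1)).filter v, ‖E d c c 0 j‖⁻¹ := by linarith
  have hv0 : v 0 := by rw [hv]; exact hA 0 (by simp [hδ])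
  have h5 : ∑ j ∈ Finset.range (N + 1), ‖E d c c 0 j‖⁻¹ =
      1 + ∑ j ∈ Finset.Icc 1 N, ‖E d c c 0 j‖⁻¹ := by
    rw [Finset.sum_range_succ', E_self, norm_one, inv_one, Icc_eq, add_comm]
  have h6 : ∑ j ∈ (Finset.range (N + 1)).filter v, ‖E d c c 0 j‖⁻¹ =
      1 + ∑ j ∈ (Finset.Icc 1 N).filter (fun j => (f d c)^[j] c ∈ A), ‖E d c c 0 j‖⁻¹ := by
    rw [Finset.sum_filter, Finset.sum_range_succ', if_pos hv0, E_self, norm_one, inv_one,
      add_comm, Finset.sum_filter, Icc_eq]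
    congr 1
    apply Finset.sum_congr rfl
    intro j _
    simp only [hv]
  rw [h5, h6] at h4
  rw [inv_mul_le_iff₀ (by positivity)]
  linarith

/-- **Direction fields at the visits to a set.** -/
theorem field (hd : 2 ≤ d) (hc : c ∈ multibrotSet d) (hint : interior (K d c) = ∅)
    {u : ℂ → ℂ} (hu : ContinuousOn u (K d c)) {A : Set ℂ} {δ : ℝ} (hδ : 0 < δ) {L n₀ : ℕ}
    (hA : ∀ j, ‖(f d c)^[j] c - c‖ < δ → (f d c)^[j] c ∈ A)
    (hL : ∀ j, ∃ k ≤ L, (f d c)^[j + k] c ∈ A)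
    (hsec : ∀ k, n₀ ≤ k → infDist ((f d c)^[k] c) A < δ →
      ‖E d c c 0 k‖ ≤ ((starRingEnd ℂ) (u ((f d c)^[k] c)) * E d c c 0 k).re) :
    c ∈ closure (hyp d) := by
  by_contra hcl
  have h00 : ∀ i, 1 ≤ i → (f d c)^[i] 0 ≠ 0 := fun i hi h =>
    hcl (subset_closure (hyp_of_zero hd hi h))
  have h0 : ∀ i, (f d c)^[i] c ≠ 0 := by
    intro i
    have := h00 (i + 1) (by omega)
    rwa [Function.iterate_succ_apply, f_zero hd] at this
  have hcK : c ∈ K d c := by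
    have := iter_mem (zero_mem_K hd hc) 1
    rwa [Function.iterate_one, f_zero hd] at this
  obtain ⟨a', ha', h1⟩ := syndetic hd hc h0 hδ hA hL
  exact hcl (local_field hd hc hint hcK h0 (not_summable hd hc hint hcl) hu hδ ha' hsec h1)

end Pool.Agent.Helper30.PC
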