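import Pool.Agent.Helper30.PC.Main

/-!
# Divergence at the critical value, and the sector criterion
-/

set_option autoImplicit false
open Set Filter Topology Metric N62a1eb23

namespace Pool.Agent.Helper30.PC

variable {d : ℕ} {c z : ℂ}

lemma f_zero (hd : 2 ≤ d) : f d c 0 = c := by
  unfold f
  rw [zero_pow (by omega), zero_add]

lemma hyp_of_zero (hd : 2 ≤ d) {i : ℕ} (hi : 1 ≤ i) (h : (f d c)^[i] 0 = 0) : c ∈ hyp d := by
  refine ⟨i, 0, by omega, h, ?_, ?_⟩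
  · exact (Pool.Agent.X151.LF.diff_iter d c i).differentiableAt
  · rw [deriv_iter, E_zero_zero hd hi, norm_zero]
    exact one_pos

lemma E_ne (hd : 2 ≤ d) (h0 : ∀ i, (f d c)^[i] z ≠ 0) (j N : ℕ) : E d c z j N ≠ 0 := by
  unfold E
  refine Finset.prod_ne_zero_iff.mpr fun i _ => ?_
  unfold df
  have : (d : ℂ) ≠ 0 := by exact_mod_cast (by omega : d ≠ 0)
  exact mul_ne_zero this (pow_ne_zero _ (h0 i))

lemma W_div (hd : 2 ≤ d) (h0 : ∀ i, (f d c)^[i] z ≠ 0) (φ : ℂ → ℂ) (N : ℕ) :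
    W d c φ z N = E d c z 0 N * ∑ j ∈ Finset.Icc 1 N, φ ((f d c)^[j] z) / E d c z 0 j := by
  unfold W
  rw [Finset.mul_sum]
  apply Finset.sum_congr rfl
  intro j hj
  rw [← E_mul (Nat.zero_le j) (Finset.mem_Icc.mp hj).2]
  have := E_ne hd h0 0 j
  field_simp

lemma S_div (hd : 2 ≤ d) (h0 : ∀ i, (f d c)^[i] z ≠ 0) (N : ℕ) :
    S d c z N = ‖E d c z 0 N‖ * ∑ j ∈ Finset.Icc 1 N, ‖E d c z 0 j‖⁻¹ := by
  unfold S
  rw [Finset.mul_sum]
  apply Finset.sum_congr rfl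
  intro j hj
  rw [← E_mul (Nat.zero_le j) (Finset.mem_Icc.mp hj).2, norm_mul]
  have := norm_pos_iff.mpr (E_ne hd h0 0 j)
  field_simp

lemma Icc_eq (g : ℕ → ℝ) (N : ℕ) :
    ∑ j ∈ Finset.Icc 1 N, g j = ∑ j ∈ Finset.range N, g (j + 1) := by
  rw [Finset.range_eq_Ico, Finset.sum_Ico_add' g 0 N 1]
  rfl

lemma Icc_eqC (g : ℕ → ℂ) (N : ℕ) :
    ∑ j ∈ Finset.Icc 1 N, g j = ∑ j ∈ Finset.range N, g (j + 1) := by
  rw [Finset.range_eq_Ico, Finset.sum_Ico_add' g 0 N 1]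
  rfl

lemma E_crit (hd : 2 ≤ d) (j N : ℕ) : E d c 0 (j + 1) (N + 1) = E d c c j N := by
  unfold E
  rw [← Finset.prod_Ico_add' (fun i => df d c 0 i) j N 1]
  apply Finset.prod_congr rfl
  intro i _
  rw [← iter_succ_shift, f_zero hd]

/-- the series of the inverses of the derivatives at the critical value diverges outside of the
closure of the hyperbolic parameters -/
theorem not_summable (hd : 2 ≤ d) (hc : c ∈ multibrotSet d) (hint : interior (K d c) = ∅)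
    (hcl : c ∉ closure (hyp d)) : ¬ Summable fun j : ℕ => ‖E d c c 0 j‖⁻¹ := by
  intro hs
  have h00 : ∀ i, 1 ≤ i → (f d c)^[i] 0 ≠ 0 := fun i hi h =>
    hcl (subset_closure (hyp_of_zero hd hi h))
  have h0 : ∀ i, (f d c)^[i] c ≠ 0 := by
    intro i
    have := h00 (i + 1) (by omega)
    rwa [Function.iterate_succ_apply, f_zero hd] at this
  have hne : ∀ j, 1 ≤ j → (f d c)^[j] c ≠ c := by
    intro j hj h
    obtain ⟨i, rfl⟩ : ∃ i, j = i + 1 := ⟨j - 1, by omega⟩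
    rw [Function.iterate_succ_apply'] at h
    have h1 : ((f d c)^[i] c) ^ d = 0 := by
      have : f d c ((f d c)^[i] c) = ((f d c)^[i] c) ^ d + c := rfl
      rw [this] at h
      linear_combination h
    exact h0 i (by rwa [pow_eq_zero_iff (by omega)] at h1)
  obtain ⟨J, hJ⟩ : ∃ J, ∑' j, ‖E d c c 0 (j + (J + 1))‖⁻¹ < 1 / 2 := by
    have h1 := (tendsto_sum_nat_add fun j : ℕ => ‖E d c c 0 j‖⁻¹).comp (tendsto_add_atTop_nat 1)
    obtain ⟨J, hJ⟩ := (h1.eventually (gt_mem_nhds (show (0 : ℝ) < 1 / 2 by norm_num))).exists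
    exact ⟨J, hJ⟩
  obtain ⟨δ, hδ, hδJ⟩ : ∃ δ > 0, ∀ j ∈ Finset.Icc 1 J, δ ≤ ‖(f d c)^[j] c - c‖ := by
    rcases (Finset.Icc 1 J).eq_empty_or_nonempty with h | h
    · exact ⟨1, one_pos, by simp [h]⟩
    · refine ⟨(Finset.Icc 1 J).inf' h fun j => ‖(f d c)^[j] c - c‖, ?_, fun j hj =>
        Finset.inf'_le _ hj⟩
      rw [gt_iff_lt, Finset.lt_inf'_iff]
      intro j hj
      rw [norm_pos_iff, sub_ne_zero]
      exact hne j (Finset.mem_Icc.mp hj).1
  obtain ⟨ψ, hψ⟩ : ∃ ψ : ℂ → ℝ, ∀ w, ψ w = max 0 (1 - ‖w - c‖ / δ) := ⟨_, fun _ => rfl⟩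
  have hψc : Continuous fun w => (ψ w : ℂ) := by
    have : ψ = fun w => max 0 (1 - ‖w - c‖ / δ) := funext hψ
    rw [this]
    fun_prop
  have hψ0 : ∀ w, 0 ≤ ψ w := fun w => by rw [hψ]; exact le_max_left _ _
  have hψ1 : ∀ w, ψ w ≤ 1 := fun w => by
    rw [hψ]
    refine max_le (by norm_num) ?_
    have : 0 ≤ ‖w - c‖ / δ := by positivity
    linarith
  obtain ⟨T, hT⟩ : ∃ T, T = ∑' j, ‖E d c c 0 j‖⁻¹ := ⟨_, rfl⟩
  have hEn : ∀ j, 0 < ‖E d c c 0 j‖ := fun j => norm_pos_iff.mpr (E_ne hd h0 0 j)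
  have hT1 : 1 ≤ T := by
    have h1 := hs.le_tsum 0 (fun j _ => (inv_pos.mpr (hEn j)).le)
    rw [E_self, norm_one, inv_one] at h1
    rw [hT]; exact h1
  obtain ⟨C, hC, -, h2⟩ := cancel hd hc hcl hψc.continuousOn (by
    rw [hint]
    exact differentiableOn_empty) (show 0 < 1 / (8 * T) by positivity)
  have htend : Tendsto (fun N => C * ‖E d c c 0 N‖⁻¹) atTop (𝓝 0) := by
    have := hs.tendsto_atTop_zero.const_mul C
    rwa [mul_zero] at this
  obtain ⟨N, hN1, hN2⟩ := ((htend.eventually (gt_mem_nhds (show (0 : ℝ) < 1 / 8 by norm_num))).and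
    (eventually_ge_atTop J)).exists
  have h3 := h2 (N + 1)
  -- the sums in terms of the orbit of the critical value
  have hW : W d c (fun w => (ψ w : ℂ)) 0 (N + 1) = E d c c 0 N *
      ∑ j ∈ Finset.range (N + 1), (ψ ((f d c)^[j] c) : ℂ) / E d c c 0 j := by
    unfold W
    rw [Icc_eqC, Finset.mul_sum]
    apply Finset.sum_congr rfl
    intro j hj
    have hj' : j ≤ N := by have := Finset.mem_range.mp hj; omega
    rw [E_crit hd, Function.iterate_succ_apply, f_zero hd, ← E_mul (Nat.zero_le j) hj']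
    have := E_ne hd h0 0 j
    field_simp
  have hS : S d c 0 (N + 1) = ‖E d c c 0 N‖ * ∑ j ∈ Finset.range (N + 1), ‖E d c c 0 j‖⁻¹ := by
    unfold S
    rw [Icc_eq, Finset.mul_sum]
    apply Finset.sum_congr rfl
    intro j hj
    have hj' : j ≤ N := by have := Finset.mem_range.mp hj; omega
    rw [E_crit hd, ← E_mul (Nat.zero_le j) hj', norm_mul]
    have := hEn j
    field_simp
  rw [hW, hS, norm_mul] at h3
  have hlow : 1 / 2 ≤ ‖∑ j ∈ Finset.range (N + 1), (ψ ((f d c)^[j] c) : ℂ) / E d c c 0 j‖ := by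
    have e1 : ∑ j ∈ Finset.range (N + 1), (ψ ((f d c)^[j] c) : ℂ) / E d c c 0 j =
        1 + ∑ j ∈ Finset.Ico (J + 1) (N + 1), (ψ ((f d c)^[j] c) : ℂ) / E d c c 0 j := by
      rw [← Finset.sum_range_add_sum_Ico _ (by omega : J + 1 ≤ N + 1), Finset.sum_range_succ']
      congr 1
      rw [Finset.sum_eq_zero, zero_add]
      · rw [E_self, div_one, Function.iterate_zero, id, hψ, sub_self, norm_zero, zero_div,
          sub_zero]
        norm_num
      · intro j hj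
        have h4 := hδJ (j + 1) (Finset.mem_Icc.mpr ⟨by omega, by
          have := Finset.mem_range.mp hj; omega⟩)
        have h5 : 1 ≤ ‖(f d c)^[j + 1] c - c‖ / δ := by
          rwa [le_div_iff₀ hδ, one_mul]
        rw [hψ, max_eq_left (by linarith)]
        simp
    rw [e1]
    have h4 : ‖∑ j ∈ Finset.Ico (J + 1) (N + 1), (ψ ((f d c)^[j] c) : ℂ) / E d c c 0 j‖ ≤ 1 / 2 := by
      refine (norm_sum_le _ _).trans ?_
      have h5 : ∑ j ∈ Finset.Ico (J + 1) (N + 1), ‖(ψ ((f d c)^[j] c) : ℂ) / E d c c 0 j‖ ≤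
          ∑ j ∈ Finset.Ico (J + 1) (N + 1), ‖E d c c 0 j‖⁻¹ := by
        apply Finset.sum_le_sum
        intro j _
        rw [norm_div, Complex.norm_real, Real.norm_of_nonneg (hψ0 _), div_eq_mul_inv]
        exact mul_le_of_le_one_left (inv_pos.mpr (hEn j)).le (hψ1 _)
      refine h5.trans ?_
      rw [Finset.sum_Ico_eq_sum_range]
      have h6 : Summable fun j => ‖E d c c 0 (j + (J + 1))‖⁻¹ :=
        (summable_nat_add_iff (J + 1)).mpr hs
      have h7 := h6.sum_le_tsum (Finset.range (N + 1 - (J + 1)))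
        (fun j _ => (inv_pos.mpr (hEn _)).le)
      refine le_trans (le_of_eq ?_) (h7.trans hJ.le)
      apply Finset.sum_congr rfl
      intro j _
      rw [add_comm (J + 1) j]
    have h5 := norm_sub_norm_le (1 : ℂ)
      (-∑ j ∈ Finset.Ico (J + 1) (N + 1), (ψ ((f d c)^[j] c) : ℂ) / E d c c 0 j)
    rw [norm_neg, norm_one, sub_neg_eq_add] at h5
    linarith
  have hup : ∑ j ∈ Finset.range (N + 1), ‖E d c c 0 j‖⁻¹ ≤ T := by
    rw [hT]
    exact hs.sum_le_tsum _ (fun j _ => (inv_pos.mpr (hEn _)).le)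
  have h4 := hEn N
  have h5 : 1 / (8 * T) * (‖E d c c 0 N‖ * ∑ j ∈ Finset.range (N + 1), ‖E d c c 0 j‖⁻¹) ≤
      ‖E d c c 0 N‖ * (1 / 8) := by
    calc 1 / (8 * T) * (‖E d c c 0 N‖ * ∑ j ∈ Finset.range (N + 1), ‖E d c c 0 j‖⁻¹) ≤
          1 / (8 * T) * (‖E d c c 0 N‖ * T) := by gcongr
      _ = _ := by field_simp
  have h6 : C < ‖E d c c 0 N‖ * (1 / 8) := by
    rw [← div_eq_mul_inv, div_lt_iff₀ h4] at hN1
    linarith
  have h7 : ‖E d c c 0 N‖ * (1 / 2) ≤ ‖E d c c 0 N‖ *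
      ‖∑ j ∈ Finset.range (N + 1), (ψ ((f d c)^[j] c) : ℂ) / E d c c 0 j‖ := by gcongr
  linarith

/-- no uniform lower bound of the weighted sums along an orbit with a divergent series -/
theorem no_pos (hd : 2 ≤ d) (hc : c ∈ multibrotSet d) (hint : interior (K d c) = ∅)
    (hcl : c ∉ closure (hyp d)) (hz : z ∈ K d c) (h0 : ∀ i, (f d c)^[i] z ≠ 0)
    (hdiv : ¬ Summable fun j : ℕ => ‖E d c z 0 j‖⁻¹) {φ : ℂ → ℂ} (hφ : ContinuousOn φ (K d c))
    {b C₀ : ℝ} (hb : 0 < b) (hC₀ : 0 ≤ C₀)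
    (h1 : ∀ N, b * S d c z N - C₀ * ‖E d c z 0 N‖ ≤ ‖W d c φ z N‖) : False := by
  have hKc : IsClosed (K d c) := Pool.Agent.X151.LF.isClosed_K hd c
  have hzf : z ∈ frontier (K d c) := by
    rw [frontier, hint, hKc.closure_eq, sdiff_empty]
    exact hz
  obtain ⟨C₁, hC₁, h2, -⟩ := cancel hd hc hcl hφ (by
    rw [hint]
    exact differentiableOn_empty) (half_pos hb)
  obtain ⟨C, hCd⟩ : ∃ C, C = C₁ + C₀ := ⟨_, rfl⟩
  have hC : 0 ≤ C := by rw [hCd]; positivity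
  have hS : ∀ N, b / 2 * S d c z N ≤ C * (1 + ‖E d c z 0 N‖) := by
    intro N
    have h3 := h1 N
    have h4 := h2 z hzf N
    rw [hCd]
    linarith
  have hEn : ∀ j, 0 < ‖E d c z 0 j‖ := fun j => norm_pos_iff.mpr (E_ne hd h0 0 j)
  -- the partial sums tend to infinity
  have htend : Tendsto (fun N => ∑ j ∈ Finset.Icc 1 N, ‖E d c z 0 j‖⁻¹) atTop atTop := by
    have h3 := (not_summable_iff_tendsto_nat_atTop_of_nonneg
      (fun j => (inv_pos.mpr (hEn j)).le)).mp hdiv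
    have h4 : Tendsto (fun N => ∑ j ∈ Finset.range (N + 1), ‖E d c z 0 j‖⁻¹) atTop atTop :=
      h3.comp (tendsto_add_atTop_nat 1)
    have h5 : ∀ N, ∑ j ∈ Finset.Icc 1 N, ‖E d c z 0 j‖⁻¹ =
        (∑ j ∈ Finset.range (N + 1), ‖E d c z 0 j‖⁻¹) + (-1) := by
      intro N
      rw [Finset.sum_range_succ', E_self, norm_one, inv_one, add_neg_cancel_right, Icc_eq]
    simp only [h5]
    exact tendsto_atTop_add_const_right _ _ h4
  have hev : ∀ᶠ N in atTop, ‖E d c z 0 N‖ + S d c z N ≤ 4 * C / b + 4 * C / b := by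
    filter_upwards [htend.eventually_ge_atTop (4 * C / b), htend.eventually_ge_atTop 1]
      with N h3 h4
    have h5 := hS N
    have h6 := hEn N
    have h7 : 4 * C ≤ b * ∑ j ∈ Finset.Icc 1 N, ‖E d c z 0 j‖⁻¹ := by
      rw [div_le_iff₀ hb] at h3
      linarith
    have h8 : ‖E d c z 0 N‖ * (4 * C) ≤ b * S d c z N := by
      rw [S_div hd h0]
      calc ‖E d c z 0 N‖ * (4 * C) ≤
            ‖E d c z 0 N‖ * (b * ∑ j ∈ Finset.Icc 1 N, ‖E d c z 0 j‖⁻¹) := by gcongr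
        _ = _ := by ring
    have h9 : S d c z N ≤ 4 * C / b := by
      rw [le_div_iff₀ hb]
      nlinarith
    have h10 : ‖E d c z 0 N‖ ≤ S d c z N := by
      rw [S_div hd h0]
      exact le_mul_of_one_le_right h6.le h4
    linarith
  obtain ⟨N₀, hN₀⟩ := eventually_atTop.mp hev
  obtain ⟨B, hB⟩ : ∃ B : ℝ, ∀ N, ‖E d c z 0 N‖ + S d c z N ≤ B := by
    refine ⟨(4 * C / b + 4 * C / b) +
      ∑ N ∈ Finset.range N₀, (‖E d c z 0 N‖ + S d c z N), fun N => ?_⟩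
    have hnn : ∀ N, 0 ≤ ‖E d c z 0 N‖ + S d c z N := fun N =>
      add_nonneg (norm_nonneg _) (S_nonneg N)
    rcases Nat.lt_or_ge N N₀ with h | h
    · have h3 := Finset.single_le_sum (f := fun N => ‖E d c z 0 N‖ + S d c z N)
        (fun N _ => hnn N) (Finset.mem_range.mpr h)
      have h4 : 0 ≤ 4 * C / b := by positivity
      linarith
    · have h3 := hN₀ N h
      have h4 := Finset.sum_nonneg (s := Finset.range N₀) fun N _ => hnn N
      linarith
  have h3 := contraction hd hc hz hB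
  rw [hint] at h3
  exact h3

end Pool.Agent.Helper30.PC
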